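import Pool.Agent.Lib.MP_ed7341_co.KM.Defs

section
/-
MP_ed7341_co, frame geometries (helper55): Mader's bound for K_m-minors, in linear form.
-/
set_option autoImplicit false

namespace MPed7341.FG

open Submodule Finset

section

variable {F : Type} [Field F] {V : Type} [AddCommGroup V] [Module F V] {ι : Type}

/-- `w` is affinely independent on `U` modulo `W`. -/
def AI (W : Submodule F V) (U : Finset ι) (w : ι → V) : Prop :=
  ∀ a : ι → F, ∑ i ∈ U, a i = 0 → ∑ i ∈ U, a i • w i ∈ W → ∀ i ∈ U, a i = 0

open Classical in
/-- ordered pairs of different elements of `U` whose difference is represented by `E`. -/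
noncomputable def ep (W : Submodule F V) (E : Finset V) (U : Finset ι) (w : ι → V) :
    Finset (ι × ι) :=
  (U ×ˢ U).filter (fun p => p.1 ≠ p.2 ∧ Hit W E (w p.1 - w p.2))

/-- the constant: `0, 1, 2, 4, 8, ...` for `m = 2, 3, 4, ...`. -/
def gg (m : ℕ) : ℕ := if m < 3 then 0 else 2 ^ (m - 3)

theorem gg_step (m : ℕ) (hm : 2 ≤ m) : 1 ≤ gg (m + 1) ∧ 2 * gg m ≤ gg (m + 1) := by
  unfold gg
  rw [if_neg (by omega)]
  refine ⟨Nat.one_le_two_pow, ?_⟩
  split_ifs with h
  · exact Nat.zero_le _
  · have : m + 1 - 3 = (m - 3) + 1 := by omega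
    rw [this, pow_succ]
    omega

theorem hit_symm {W : Submodule F V} {E : Finset V} {x y : V} (h : Hit W E (x - y)) :
    Hit W E (y - x) := by
  obtain ⟨e, he, c, hc, hm⟩ := h
  refine ⟨e, he, -c, neg_ne_zero.mpr hc, ?_⟩
  have : e - (-c) • (y - x) = e - c • (x - y) := by
    rw [neg_smul, ← smul_neg, neg_sub]
  rw [this]
  exact hm

theorem hit_mono {W W' : Submodule F V} (h : W ≤ W') {E : Finset V} {v : V} (hv : Hit W E v) :
    Hit W' E v := by
  obtain ⟨e, he, c, hc, hm⟩ := hv
  exact ⟨e, he, c, hc, h hm⟩

theorem hit_congr {W : Submodule F V} {E : Finset V} {v v' : V} (h : v - v' ∈ W)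
    (hv : Hit W E v) : Hit W E v' := by
  obtain ⟨e, he, c, hc, hm⟩ := hv
  refine ⟨e, he, c, hc, ?_⟩
  have : e - c • v' = (e - c • v) + c • (v - v') := by
    rw [smul_sub]; abel
  rw [this]
  exact W.add_mem hm (W.smul_mem _ h)

open Classical in
theorem mem_ep {W : Submodule F V} {E : Finset V} {U : Finset ι} {w : ι → V} {p : ι × ι} :
    p ∈ ep W E U w ↔ p.1 ∈ U ∧ p.2 ∈ U ∧ p.1 ≠ p.2 ∧ Hit W E (w p.1 - w p.2) := by
  unfold ep
  rw [Finset.mem_filter, Finset.mem_product, and_assoc]

theorem AI.subset {W : Submodule F V} {U U' : Finset ι} {w : ι → V} (h : AI W U w)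
    (hU : U' ⊆ U) : AI W U' w := by
  classical
  intro a h0 h1 i hi
  have h2 := h (fun i => if i ∈ U' then a i else 0)
    (by
      rw [Finset.sum_ite_mem, Finset.inter_eq_right.mpr hU]
      exact h0)
    (by
      simp only [ite_smul, zero_smul]
      rw [Finset.sum_ite_mem, Finset.inter_eq_right.mpr hU]
      exact h1) i (hU hi)
  simpa [hi] using h2

/-- independence of an injective family. -/
theorem AI.fam {W : Submodule F V} {U : Finset ι} {w : ι → V} (h : AI W U w) {m : ℕ}
    (u : Fin m → ι) (hu : ∀ i, u i ∈ U) (hinj : Function.Injective u) :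
    ∀ a : Fin m → F, ∑ i, a i = 0 → ∑ i, a i • w (u i) ∈ W → a = 0 := by
  classical
  intro a h0 h1
  have e0 : ∑ x ∈ U, (∑ i, if u i = x then a i else 0) = ∑ i, a i := by
    rw [Finset.sum_comm]
    refine Finset.sum_congr rfl fun i _ => ?_
    rw [Finset.sum_ite_eq, if_pos (hu i)]
  have e1 : ∑ x ∈ U, (∑ i, if u i = x then a i else 0) • w x = ∑ i, a i • w (u i) := by
    simp only [Finset.sum_smul, ite_smul, zero_smul]
    rw [Finset.sum_comm]
    refine Finset.sum_congr rfl fun i _ => ?_
    rw [Finset.sum_ite_eq, if_pos (hu i)]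
  have h2 := h (fun x => ∑ i, if u i = x then a i else 0) (by rw [e0, h0]) (by rw [e1]; exact h1)
  funext j
  have h3 := h2 (u j) (hu j)
  rw [Finset.sum_eq_single j] at h3
  · simpa using h3
  · intro i _ hi
    rw [if_neg (fun h => hi (hinj h))]
  · simp

/-- elements of the span of the differences. -/
theorem mem_diffs {U : Finset ι} {w : ι → V} {z : V}
    (hz : z ∈ span F {v : V | ∃ i ∈ U, ∃ j ∈ U, v = w i - w j}) :
    ∃ b : ι → F, ∑ i ∈ U, b i = 0 ∧ z = ∑ i ∈ U, b i • w i := by
  classical
  induction hz using Submodule.span_induction with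
  | mem x hx =>
    obtain ⟨i, hi, j, hj, rfl⟩ := hx
    refine ⟨fun k => (if k = i then 1 else 0) - (if k = j then 1 else 0), ?_, ?_⟩
    · rw [Finset.sum_sub_distrib, Finset.sum_ite_eq', Finset.sum_ite_eq', if_pos hi, if_pos hj,
        sub_self]
    · simp only [sub_smul, ite_smul, one_smul, zero_smul]
      rw [Finset.sum_sub_distrib, Finset.sum_ite_eq', Finset.sum_ite_eq', if_pos hi, if_pos hj]
  | zero => exact ⟨0, by simp, by simp⟩
  | add x y _ _ hx hy =>
    obtain ⟨b, hb, rfl⟩ := hx
    obtain ⟨b', hb', rfl⟩ := hy
    refine ⟨b + b', ?_, ?_⟩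
    · simp [Finset.sum_add_distrib, hb, hb']
    · simp [Finset.sum_add_distrib, add_smul]
  | smul c x _ hx =>
    obtain ⟨b, hb, rfl⟩ := hx
    refine ⟨c • b, ?_, ?_⟩
    · simp [← Finset.mul_sum, hb]
    · simp [Finset.smul_sum, mul_smul]

/-- the conclusion of Mader's theorem. -/
def Con (E : Finset V) (m : ℕ) (U : Finset ι) (w : ι → V) (C : Finset V) : Prop :=
  ∃ (C' : Finset V) (u : Fin m → ι), C' ⊆ E ∧ C ⊆ C' ∧
    span F (C' : Set V) ≤ span F (C : Set V) ⊔
      span F {v : V | ∃ i ∈ U, ∃ j ∈ U, v = w i - w j} ∧ (∀ i, u i ∈ U) ∧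
    (∀ a : Fin m → F, ∑ i, a i = 0 → ∑ i, a i • w (u i) ∈ span F (C' : Set V) → a = 0) ∧
    ∀ i j, i ≠ j → Hit (span F (C' : Set V)) E (w (u i) - w (u j))

/-- base case: an edge. -/
theorem mader_two (E : Finset V) (U : Finset ι) (w : ι → V) (C : Finset V) (hC : C ⊆ E)
    (hA : AI (span F (C : Set V)) U w) (p : ι × ι) (hp : p ∈ ep (span F (C : Set V)) E U w) :
    Con (F := F) E 2 U w C := by
  obtain ⟨h1, h2, h3, h4⟩ := mem_ep.mp hp
  refine ⟨C, ![p.1, p.2], hC, Finset.Subset.refl _, le_sup_left, ?_, ?_, ?_⟩
  · intro i; fin_cases i <;> assumption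
  · apply hA.fam
    · intro i; fin_cases i <;> assumption
    · intro i j hij
      fin_cases i <;> fin_cases j
      · rfl
      · exact absurd hij h3
      · exact absurd hij.symm h3
      · rfl
  · intro i j hij
    fin_cases i <;> fin_cases j
    · exact absurd rfl hij
    · exact h4
    · exact hit_symm h4
    · exact absurd rfl hij

open Classical in
/-- common neighbours. -/
noncomputable def cn (W : Submodule F V) (E : Finset V) (U : Finset ι) (w : ι → V) (i j : ι) :
    Finset ι :=
  U.filter (fun k => (i, k) ∈ ep W E U w ∧ (j, k) ∈ ep W E U w)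

open Classical in
/-- contraction of an edge with few common neighbours. -/
theorem contract (E : Finset V) (U : Finset ι) (w : ι → V) (C : Finset V) (hC : C ⊆ E)
    (hA : AI (span F (C : Set V)) U w) (i j : ι)
    (hp : (i, j) ∈ ep (span F (C : Set V)) E U w) :
    ∃ C1 : Finset V, C1 ⊆ E ∧ C ⊆ C1 ∧ AI (span F (C1 : Set V)) (U.erase j) w ∧
      span F (C1 : Set V) ≤ span F (C : Set V) ⊔
        span F {v : V | ∃ i ∈ U, ∃ j ∈ U, v = w i - w j} ∧
      (ep (span F (C : Set V)) E U w).card ≤
        (ep (span F (C1 : Set V)) E (U.erase j) w).card + 2 +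
          2 * (cn (span F (C : Set V)) E U w i j).card := by
  obtain ⟨hi, hj, hij, e, he, c, hc, hm⟩ := mem_ep.mp hp
  simp only at hi hj hij hm
  have hspan : span F ((insert e C : Finset V) : Set V) =
      span F {w i - w j} ⊔ span F (C : Set V) := by
    rw [Finset.coe_insert, Submodule.span_insert]
    apply le_antisymm
    · refine sup_le ?_ le_sup_right
      rw [Submodule.span_singleton_le_iff_mem]
      have : e = c • (w i - w j) + (e - c • (w i - w j)) := by abel
      rw [this]
      exact Submodule.add_mem _ (Submodule.mem_sup_left (Submodule.smul_mem _ _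
        (mem_span_singleton_self _))) (Submodule.mem_sup_right hm)
    · refine sup_le ?_ le_sup_right
      rw [Submodule.span_singleton_le_iff_mem]
      have : w i - w j = c⁻¹ • e - c⁻¹ • (e - c • (w i - w j)) := by
        rw [smul_sub, smul_smul, inv_mul_cancel₀ hc, one_smul]; abel
      rw [this]
      exact Submodule.sub_mem _ (Submodule.mem_sup_left (Submodule.smul_mem _ _
        (mem_span_singleton_self _))) (Submodule.mem_sup_right (Submodule.smul_mem _ _ hm))
  have hle : span F (C : Set V) ≤ span F ((insert e C : Finset V) : Set V) :=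
    span_mono (by exact_mod_cast Finset.subset_insert e C)
  have hdiff : w i - w j ∈ span F ((insert e C : Finset V) : Set V) := by
    rw [hspan]
    exact Submodule.mem_sup_left (mem_span_singleton_self _)
  refine ⟨insert e C, ?_, Finset.subset_insert _ _, ?_, ?_, ?_⟩
  · exact Finset.insert_subset he hC
  · -- independence
    intro a h0 h1
    rw [hspan, Submodule.mem_sup] at h1
    obtain ⟨y, hy, z, hz, hyz⟩ := h1
    obtain ⟨t, rfl⟩ := mem_span_singleton.mp hy
    have hiU : i ∈ U.erase j := Finset.mem_erase.mpr ⟨hij, hi⟩
    let b : ι → F := fun k => (if k = j then 0 else a k) - t * ((if k = i then 1 else 0) -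
      (if k = j then 1 else 0))
    have s1 : ∑ k ∈ U, (if k = j then 0 else a k) = 0 := by
      rw [← Finset.insert_erase hj, Finset.sum_insert (Finset.notMem_erase j U), if_pos rfl,
        zero_add]
      rw [← h0]
      exact Finset.sum_congr rfl fun k hk => if_neg (Finset.ne_of_mem_erase hk)
    have s2 : ∑ k ∈ U, (if k = j then 0 else a k) • w k = ∑ k ∈ U.erase j, a k • w k := by
      rw [← Finset.insert_erase hj, Finset.sum_insert (Finset.notMem_erase j U), if_pos rfl,
        zero_smul, zero_add, Finset.erase_insert (Finset.notMem_erase j U)]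
      exact Finset.sum_congr rfl fun k hk => by rw [if_neg (Finset.ne_of_mem_erase hk)]
    have b0 : ∑ k ∈ U, b k = 0 := by
      simp only [b]
      rw [Finset.sum_sub_distrib, s1, ← Finset.mul_sum, Finset.sum_sub_distrib,
        Finset.sum_ite_eq', Finset.sum_ite_eq', if_pos hi, if_pos hj]
      ring
    have b1 : ∑ k ∈ U, b k • w k = z := by
      simp only [b, sub_smul, mul_smul, Finset.sum_sub_distrib]
      rw [s2, ← Finset.smul_sum]
      simp only [ite_smul, one_smul, zero_smul]
      rw [Finset.sum_sub_distrib, Finset.sum_ite_eq', Finset.sum_ite_eq', if_pos hi, if_pos hj,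
        ← hyz]
      abel
    have hb := hA b b0 (by rw [b1]; exact hz)
    have ht : t = 0 := by
      have := hb j hj
      simp only [b, if_true, if_neg hij.symm] at this
      linear_combination this
    intro k hk
    have hk1 := Finset.ne_of_mem_erase hk
    have := hb k (Finset.mem_of_mem_erase hk)
    simp only [b] at this
    rw [if_neg hk1, ht, zero_mul, sub_zero] at this
    exact this
  · rw [hspan]
    refine sup_le ?_ le_sup_left
    rw [Submodule.span_singleton_le_iff_mem]
    exact Submodule.mem_sup_right (subset_span ⟨i, hi, j, hj, rfl⟩)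
  · -- counting
    set G := ep (span F (C : Set V)) E U w with hG
    set T := cn (span F (C : Set V)) E U w i j with hT
    let bad : Finset (ι × ι) := {(i, j), (j, i)} ∪ (T.image (fun k => (j, k)) ∪
      T.image (fun k => (k, j)))
    have hbad : bad.card ≤ 2 + 2 * T.card := by
      refine (Finset.card_union_le _ _).trans ?_
      have h1 : ({(i, j), (j, i)} : Finset (ι × ι)).card ≤ 2 := Finset.card_le_two
      have h2 := Finset.card_union_le (T.image (fun k => (j, k))) (T.image (fun k => (k, j)))
      have h3 : (T.image (fun k => (j, k))).card ≤ T.card := Finset.card_image_le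
      have h4 : (T.image (fun k => (k, j))).card ≤ T.card := Finset.card_image_le
      omega
    let φ : ι × ι → ι × ι := fun p => (if p.1 = j then i else p.1, if p.2 = j then i else p.2)
    have hmemT : ∀ k, (i, k) ∈ G → (j, k) ∈ G → k ∈ T := by
      intro k h1 h2
      rw [hT]
      unfold cn
      exact Finset.mem_filter.mpr ⟨(mem_ep.mp h1).2.1, h1, h2⟩
    have hsymm : ∀ a b, (a, b) ∈ G → (b, a) ∈ G := by
      intro a b h
      obtain ⟨h1, h2, h3, h4⟩ := mem_ep.mp h
      exact mem_ep.mpr ⟨h2, h1, h3.symm, hit_symm h4⟩
    have hmaps : ∀ p ∈ G \ bad, φ p ∈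
        ep (span F ((insert e C : Finset V) : Set V)) E (U.erase j) w := by
      intro p hp
      obtain ⟨hpG, hpb⟩ := Finset.mem_sdiff.mp hp
      obtain ⟨h1, h2, h3, h4⟩ := mem_ep.mp hpG
      have h4' := hit_mono hle h4
      rw [mem_ep]
      simp only [φ]
      by_cases hp1 : p.1 = j
      · have hp2 : p.2 ≠ j := fun h => h3 (hp1.trans h.symm)
        have hp3 : p.2 ≠ i := by
          intro h
          apply hpb
          simp only [bad, Finset.mem_union, Finset.mem_insert, Finset.mem_singleton]
          exact Or.inl (Or.inr (Prod.ext hp1 h))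
        rw [if_pos hp1, if_neg hp2]
        refine ⟨Finset.mem_erase.mpr ⟨hij, hi⟩, Finset.mem_erase.mpr ⟨hp2, h2⟩, hp3.symm, ?_⟩
        refine hit_congr ?_ h4'
        have : w p.1 - w p.2 - (w i - w p.2) = -(w i - w j) := by rw [hp1]; abel
        rw [this]
        exact Submodule.neg_mem _ hdiff
      · by_cases hp2 : p.2 = j
        · have hp3 : p.1 ≠ i := by
            intro h
            apply hpb
            simp only [bad, Finset.mem_union, Finset.mem_insert, Finset.mem_singleton]
            exact Or.inl (Or.inl (Prod.ext h hp2))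
          rw [if_neg hp1, if_pos hp2]
          refine ⟨Finset.mem_erase.mpr ⟨hp1, h1⟩, Finset.mem_erase.mpr ⟨hij, hi⟩, hp3, ?_⟩
          refine hit_congr ?_ h4'
          have : w p.1 - w p.2 - (w p.1 - w i) = w i - w j := by rw [hp2]; abel
          rw [this]
          exact hdiff
        · rw [if_neg hp1, if_neg hp2]
          exact ⟨Finset.mem_erase.mpr ⟨hp1, h1⟩, Finset.mem_erase.mpr ⟨hp2, h2⟩, h3, h4'⟩
    have hinj : ∀ p ∈ G \ bad, ∀ p' ∈ G \ bad, φ p = φ p' → p = p' := by
      intro p hp p' hp' hpp
      obtain ⟨hpG, hpb⟩ := Finset.mem_sdiff.mp hp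
      obtain ⟨hpG', hpb'⟩ := Finset.mem_sdiff.mp hp'
      have nb1 : ∀ k, k ∈ T → (j, k) ∉ G \ bad := by
        intro k hk h
        apply (Finset.mem_sdiff.mp h).2
        simp only [bad, Finset.mem_union]
        exact Or.inr (Or.inl (Finset.mem_image_of_mem _ hk))
      have nb2 : ∀ k, k ∈ T → (k, j) ∉ G \ bad := by
        intro k hk h
        apply (Finset.mem_sdiff.mp h).2
        simp only [bad, Finset.mem_union]
        exact Or.inr (Or.inr (Finset.mem_image_of_mem _ hk))
      have nb3 : (i, j) ∉ G \ bad := by
        intro h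
        apply (Finset.mem_sdiff.mp h).2
        simp [bad]
      have nb4 : (j, i) ∉ G \ bad := by
        intro h
        apply (Finset.mem_sdiff.mp h).2
        simp [bad]
      have aux : ∀ x y, (j, x) ∈ G \ bad → (y, x) ∈ G \ bad → y = i → False := by
        intro x y h1 h2 hy
        subst hy
        exact nb1 x (hmemT x (Finset.mem_sdiff.mp h2).1 (Finset.mem_sdiff.mp h1).1) h1
      have aux2 : ∀ x y, (x, j) ∈ G \ bad → (x, y) ∈ G \ bad → y = i → False := by
        intro x y h1 h2 hy
        subst hy
        exact nb2 x (hmemT x (hsymm _ _ (Finset.mem_sdiff.mp h2).1)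
          (hsymm _ _ (Finset.mem_sdiff.mp h1).1)) h1
      obtain ⟨a, b⟩ := p
      obtain ⟨a', b'⟩ := p'
      simp only [φ, Prod.mk.injEq] at hpp
      obtain ⟨h1, h2⟩ := hpp
      have d1 := (mem_ep.mp hpG).2.2.1
      have d2 := (mem_ep.mp hpG').2.2.1
      simp only at d1 d2
      by_cases c1 : a = j
      · subst c1
        by_cases c2 : a' = a
        · subst c2
          have c3 : b ≠ a' := d1.symm
          have c4 : b' ≠ a' := d2.symm
          rw [if_neg c3, if_neg c4] at h2
          rw [h2]
        · rw [if_pos rfl, if_neg c2] at h1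
          have c3 : b ≠ a := d1.symm
          rw [if_neg c3] at h2
          by_cases c4 : b' = a
          · rw [if_pos c4] at h2
            subst h2
            exact absurd hp nb4
          · rw [if_neg c4] at h2
            subst h2
            exact (aux b a' hp hp' h1.symm).elim
      · rw [if_neg c1] at h1
        by_cases c2 : a' = j
        · subst c2
          rw [if_pos rfl] at h1
          have c4 : b' ≠ a' := d2.symm
          rw [if_neg c4] at h2
          by_cases c3 : b = a'
          · rw [if_pos c3] at h2
            subst h2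
            exact absurd hp' nb4
          · rw [if_neg c3] at h2
            subst h2
            exact (aux b a hp' hp h1).elim
        · rw [if_neg c2] at h1
          subst h1
          by_cases c3 : b = j
          · subst c3
            rw [if_pos rfl] at h2
            by_cases c4 : b' = b
            · rw [c4]
            · rw [if_neg c4] at h2
              exact (aux2 a b' hp hp' h2.symm).elim
          · rw [if_neg c3] at h2
            by_cases c4 : b' = j
            · subst c4
              rw [if_pos rfl] at h2
              exact (aux2 a b hp' hp h2).elim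
            · rw [if_neg c4] at h2
              rw [h2]
    have h5 := Finset.card_le_card_of_injOn φ hmaps (fun p hp p' hp' => hinj p hp p' hp')
    have h6 : G.card ≤ (G \ bad).card + bad.card := by
      have := Finset.card_sdiff_add_card (s := G) (t := bad)
      have h7 : G.card ≤ (G ∪ bad).card := Finset.card_le_card Finset.subset_union_left
      omega
    omega

end

end MPed7341.FG
end

section
/-
MP_ed7341_co, frame geometries (helper55): Mader's bound for K_m-minors, in linear form, the
theorem.
-/
set_option autoImplicit false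

namespace MPed7341.FG

open Submodule Finset

variable {F : Type} [Field F] {V : Type} [AddCommGroup V] [Module F V] {ι : Type}

open Classical in
theorem mader (E : Finset V) (m : ℕ) (hm : 2 ≤ m) : ∀ (U : Finset ι) (w : ι → V)
    (C : Finset V), C ⊆ E → AI (span F (C : Set V)) U w →
    2 * gg m * (U.card - 1) < (ep (span F (C : Set V)) E U w).card →
    Con (F := F) E m U w C := by
  induction m, hm using Nat.le_induction with
  | base =>
    intro U w C hC hA hcard
    obtain ⟨p, hp⟩ : (ep (span F (C : Set V)) E U w).Nonempty :=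
      Finset.card_pos.mp (Nat.lt_of_le_of_lt (Nat.zero_le _) hcard)
    exact mader_two E U w C hC hA p hp
  | succ m hm ih =>
    obtain ⟨hg1, hg2⟩ := gg_step m hm
    intro U
    induction hn : U.card using Nat.strong_induction_on generalizing U with
    | _ n ihn =>
      intro w C hC hA hcard
      by_cases hex : ∃ p ∈ ep (span F (C : Set V)) E U w,
          (cn (span F (C : Set V)) E U w p.1 p.2).card < gg (m + 1)
      · obtain ⟨⟨i, j⟩, hp, hlt⟩ := hex
        simp only at hlt
        obtain ⟨C1, hC1, hCC1, hA1, hsp, hc⟩ := contract E U w C hC hA i j hp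
        obtain ⟨hi, hj, hij, -⟩ := mem_ep.mp hp
        simp only at hi hj hij
        have hUc : (U.erase j).card = U.card - 1 := Finset.card_erase_of_mem hj
        have hU2 : 1 < U.card := Finset.one_lt_card.mpr ⟨i, hi, j, hj, hij⟩
        obtain ⟨C', u, h1, h2, h3, h4, h5, h6⟩ := ihn (U.erase j).card (by omega) (U.erase j) rfl
          w C1 hC1 hA1 (by
            obtain ⟨k, hk⟩ : ∃ k, U.card = k + 2 := ⟨U.card - 2, by omega⟩
            have e1 : (U.erase j).card - 1 = k := by omega
            have e2 : n - 1 = k + 1 := by omega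
            rw [e1]
            rw [e2] at hcard
            have e3 : 2 * gg (m + 1) * (k + 1) = 2 * gg (m + 1) * k + 2 * gg (m + 1) := by ring
            omega)
        refine ⟨C', u, h1, hCC1.trans h2, ?_, fun l => Finset.mem_of_mem_erase (h4 l), h5, h6⟩
        refine h3.trans (sup_le hsp ?_)
        refine le_trans (span_mono ?_) le_sup_right
        rintro v ⟨a, ha, b, hb, rfl⟩
        exact ⟨a, Finset.mem_of_mem_erase ha, b, Finset.mem_of_mem_erase hb, rfl⟩
      · push Not at hex
        obtain ⟨⟨x, y⟩, hp⟩ : (ep (span F (C : Set V)) E U w).Nonempty :=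
          Finset.card_pos.mp (Nat.lt_of_le_of_lt (Nat.zero_le _) hcard)
        set N := U.filter (fun k => (x, k) ∈ ep (span F (C : Set V)) E U w) with hN
        have hNU : N ⊆ U := Finset.filter_subset _ _
        have hxy := mem_ep.mp hp
        simp only at hxy
        have hyN : y ∈ N := Finset.mem_filter.mpr ⟨hxy.2.1, hp⟩
        have hxN : x ∉ N := fun h => (mem_ep.mp (Finset.mem_filter.mp h).2).2.2.1 rfl
        have hNpos : 0 < N.card := Finset.card_pos.mpr ⟨y, hyN⟩
        -- degrees in `N`
        have hdeg : gg (m + 1) * N.card ≤ (ep (span F (C : Set V)) E N w).card := by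
          have h1 : (ep (span F (C : Set V)) E N w).card =
              ∑ k ∈ N, ((ep (span F (C : Set V)) E N w).filter (fun p => p.1 = k)).card :=
            Finset.card_eq_sum_card_fiberwise (fun p hp => (mem_ep.mp hp).1)
          rw [h1, mul_comm, ← smul_eq_mul]
          apply Finset.card_nsmul_le_sum
          intro k hk
          have hxk := (Finset.mem_filter.mp hk).2
          refine (hex (x, k) hxk).trans ?_
          simp only
          apply Finset.card_le_card_of_injOn (fun l => (k, l))
          · intro l hl
            have hl' := Finset.mem_filter.mp (Finset.mem_coe.mp hl)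
            have hlN : l ∈ N := Finset.mem_filter.mpr ⟨hl'.1, hl'.2.1⟩
            have hkl := mem_ep.mp hl'.2.2
            simp only at hkl
            exact Finset.mem_coe.mpr (Finset.mem_filter.mpr
              ⟨mem_ep.mpr ⟨hk, hlN, hkl.2.2.1, hkl.2.2.2⟩, rfl⟩)
          · intro l _ l' _ h
            exact (Prod.mk.inj h).2
        obtain ⟨C', u, h1, h2, h3, h4, h5, h6⟩ := ih N w C hC (hA.subset hNU) (by
          refine lt_of_lt_of_le ?_ hdeg
          obtain ⟨k, hk⟩ : ∃ k, N.card = k + 1 := ⟨N.card - 1, by omega⟩
          rw [hk, Nat.add_sub_cancel]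
          calc 2 * gg m * k ≤ gg (m + 1) * k := Nat.mul_le_mul_right _ hg2
            _ < gg (m + 1) * (k + 1) := by
              rw [Nat.mul_succ]; omega)
        have hle : span F (C : Set V) ≤ span F (C' : Set V) := span_mono (by exact_mod_cast h2)
        have hxu : ∀ l, Hit (span F (C' : Set V)) E (w x - w (u l)) := by
          intro l
          have := mem_ep.mp (Finset.mem_filter.mp (h4 l)).2
          exact hit_mono hle this.2.2.2
        refine ⟨C', Fin.cons x u, h1, h2, ?_, ?_, ?_, ?_⟩
        · refine h3.trans (sup_le le_sup_left ?_)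
          refine le_trans (span_mono ?_) le_sup_right
          rintro v ⟨a, ha, b, hb, rfl⟩
          exact ⟨a, hNU ha, b, hNU hb, rfl⟩
        · intro l
          refine Fin.cases ?_ (fun l => ?_) l
          · rw [Fin.cons_zero]; exact hxy.1
          · rw [Fin.cons_succ]; exact hNU (h4 l)
        · intro a h0 ha
          rw [Fin.sum_univ_succ] at h0 ha
          simp only [Fin.cons_zero, Fin.cons_succ] at ha
          -- the coefficient of `x` is zero
          have ha' := h3 ha
          rw [Submodule.mem_sup] at ha'
          obtain ⟨y', hy', z, hz, hyz⟩ := ha'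
          obtain ⟨b, hb0, rfl⟩ := mem_diffs hz
          let c : ι → F := fun k => (if k = x then a 0 else 0) +
            ((∑ l : Fin m, if u l = k then a l.succ else 0) - (if k ∈ N then b k else 0))
          have hux : ∀ l, u l ≠ x := fun l h => hxN (h ▸ h4 l)
          have e0 : ∑ k ∈ U, (∑ l : Fin m, if u l = k then a l.succ else 0) =
              ∑ l : Fin m, a l.succ := by
            rw [Finset.sum_comm]
            refine Finset.sum_congr rfl fun l _ => ?_
            rw [Finset.sum_ite_eq, if_pos (hNU (h4 l))]
          have e1 : ∑ k ∈ U, (∑ l : Fin m, if u l = k then a l.succ else 0) • w k =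
              ∑ l : Fin m, a l.succ • w (u l) := by
            simp only [Finset.sum_smul, ite_smul, zero_smul]
            rw [Finset.sum_comm]
            refine Finset.sum_congr rfl fun l _ => ?_
            rw [Finset.sum_ite_eq, if_pos (hNU (h4 l))]
          have e2 : ∑ k ∈ U, (if k ∈ N then b k else 0) = 0 := by
            rw [Finset.sum_ite_mem, Finset.inter_eq_right.mpr hNU]
            exact hb0
          have e3 : ∑ k ∈ U, (if k ∈ N then b k else 0) • w k = ∑ k ∈ N, b k • w k := by
            simp only [ite_smul, zero_smul]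
            rw [Finset.sum_ite_mem, Finset.inter_eq_right.mpr hNU]
          have c0 : ∑ k ∈ U, c k = 0 := by
            simp only [c]
            rw [Finset.sum_add_distrib, Finset.sum_sub_distrib, e0, e2, Finset.sum_ite_eq',
              if_pos hxy.1, sub_zero]
            exact h0
          have c1 : ∑ k ∈ U, c k • w k = y' := by
            simp only [c, add_smul, sub_smul]
            rw [Finset.sum_add_distrib, Finset.sum_sub_distrib, e1, e3]
            simp only [ite_smul, zero_smul]
            rw [Finset.sum_ite_eq', if_pos hxy.1]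
            have : a 0 • w x + (∑ l : Fin m, a l.succ • w (u l) - ∑ k ∈ N, b k • w k) =
                (a 0 • w x + ∑ l : Fin m, a l.succ • w (u l)) - ∑ k ∈ N, b k • w k := by abel
            rw [this, ← hyz]
            abel
          have hc := hA c c0 (by rw [c1]; exact hy')
          have hx0 := hc x hxy.1
          simp only [c, if_true, if_neg hxN] at hx0
          rw [Finset.sum_eq_zero (fun l _ => if_neg (hux l)), sub_zero, add_zero] at hx0
          rw [hx0, zero_add] at h0
          rw [hx0, zero_smul, zero_add] at ha
          have h7 := h5 (fun l => a l.succ) h0 ha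
          funext l
          refine Fin.cases ?_ (fun l => ?_) l
          · exact hx0
          · exact congrFun h7 l
        · intro l l' hll
          revert hll
          refine Fin.cases ?_ (fun l => ?_) l
          · refine Fin.cases ?_ (fun l' => ?_) l'
            · intro h; exact absurd rfl h
            · intro _
              rw [Fin.cons_zero, Fin.cons_succ]
              exact hxu l'
          · refine Fin.cases ?_ (fun l' => ?_) l'
            · intro _
              rw [Fin.cons_zero, Fin.cons_succ]
              exact hit_symm (hxu l)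
            · intro h
              rw [Fin.cons_succ, Fin.cons_succ]
              exact h6 l l' (fun e => h (by rw [e]))

/-- many edges give `M(K_m)`. -/
theorem hasK (E : Finset V) (m : ℕ) (hm : 2 ≤ m) (U : Finset ι) (w : ι → V)
    (hA : AI (⊥ : Submodule F V) U w)
    (hcard : 2 * gg m * (U.card - 1) < (ep (⊥ : Submodule F V) E U w).card) :
    KM.HasK F m E := by
  have h0 : span F ((∅ : Finset V) : Set V) = ⊥ := by simp
  obtain ⟨C', u, h1, -, -, -, h5, h6⟩ := mader E m hm U w ∅ (Finset.empty_subset _)
    (by rw [h0]; exact hA) (by rw [h0]; exact hcard)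
  exact ⟨C', fun i => w (u i), h1, h5, h6⟩

end MPed7341.FG
end
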