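import Pool.Agent.Lib.MP_ed7341_co.KM.Spec
import Pool.Agent.Lib.MP_ed7341_co.FG.Mader2
import Pool.Agent.Lib.MP_ed7341_co.KM.TOP
import Pool.Agent.Lib.MP_ed7341_co.Main

section
/-
MP_ed7341_co, all m (helper55): module PSI, averaging over all functionals.
-/
set_option autoImplicit false

namespace MPed7341.KM

open Submodule Finset

namespace PSIM

theorem fib {D H : Type} [AddCommGroup D] [Fintype D] [AddCommGroup H] [Fintype H]
    [DecidableEq H] (g : D →+ H) (hg : Function.Surjective g) (b : H) :
    (univ.filter (fun d => g d = b)).card * Fintype.card H = Fintype.card D := by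
  have h1 : ∀ b' : H, (univ.filter (fun d => g d = b')).card =
      (univ.filter (fun d => g d = b)).card := fun b' =>
    AddMonoidHom.card_fiber_eq_of_mem_range g (hg b') (hg b)
  have h2 : (univ : Finset D).card = ∑ b' : H, (univ.filter (fun d => g d = b')).card :=
    Finset.card_eq_sum_card_fiberwise (fun x _ => Finset.mem_coe.mpr (Finset.mem_univ _))
  rw [← Finset.card_univ (α := D), h2, Finset.sum_congr rfl (fun b' _ => h1 b'),
    Finset.sum_const, Finset.card_univ, smul_eq_mul, mul_comm]

/-- functional with prescribed values. -/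
theorem exists_functional {F : Type} [Field F] {ι M : Type} [AddCommGroup M] [Module F M]
    {v : ι → M} (hv : LinearIndependent F v) (g : ι → F) :
    ∃ f : M →ₗ[F] F, ∀ i, f (v i) = g i := by
  obtain ⟨f, hf⟩ := LinearMap.exists_extend ((Module.Basis.span hv).constr F g)
  refine ⟨f, fun i => ?_⟩
  have h := LinearMap.congr_fun hf ((Module.Basis.span hv) i)
  rw [Module.Basis.constr_basis, LinearMap.comp_apply, Submodule.subtype_apply,
    Module.Basis.span_apply] at h
  exact h

end PSIM

open PSIM in
open Classical in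
theorem PSI : SpecPSI := by
  intro F _ _ V _ _ _ X R N hyp
  have : Finite (V →ₗ[F] F) := Module.finite_of_finite F
  have : Fintype (V →ₗ[F] F) := Fintype.ofFinite _
  set q := Fintype.card F with hq
  set Q := Fintype.card (V →ₗ[F] F) with hQ
  have hQ0 : 0 < Q := Fintype.card_pos
  -- one vector
  have h1 : ∀ x : V, (univ.filter (fun ψ : V →ₗ[F] F => ψ x = 1)).card * q ≤ Q := by
    intro x
    by_cases hx : x = 0
    · subst hx
      have : (univ.filter (fun ψ : V →ₗ[F] F => ψ 0 = 1)) = ∅ := by
        apply Finset.filter_eq_empty_iff.mpr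
        intro ψ _
        rw [map_zero]
        exact zero_ne_one
      rw [this]
      simp
    · let g : (V →ₗ[F] F) →+ F :=
        { toFun := fun ψ => ψ x
          map_zero' := rfl
          map_add' := fun _ _ => rfl }
      have hg : Function.Surjective g := by
        intro b
        obtain ⟨f, hf⟩ := exists_functional (F := F) (v := fun _ : Unit => x)
          (by
            rw [linearIndependent_unique_iff]
            exact hx) (fun _ => b)
        exact ⟨f, hf ()⟩
      exact le_of_eq (fib g hg 1)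
  -- two vectors
  have h2 : ∀ x y : V, LinearIndependent F ![x, y] →
      (univ.filter (fun ψ : V →ₗ[F] F => ψ x = 1 ∧ ψ y = 1)).card * q ^ 2 = Q := by
    intro x y hxy
    let g : (V →ₗ[F] F) →+ F × F :=
      { toFun := fun ψ => (ψ x, ψ y)
        map_zero' := rfl
        map_add' := fun _ _ => rfl }
    have hg : Function.Surjective g := by
      rintro ⟨a, b⟩
      obtain ⟨f, hf⟩ := exists_functional hxy ![a, b]
      refine ⟨f, ?_⟩
      have e0 := hf 0
      have e1 := hf 1
      simp only [Matrix.cons_val_zero, Matrix.cons_val_one] at e0 e1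
      exact Prod.ext e0 e1
    have h := fib g hg (1, 1)
    rw [Fintype.card_prod, ← sq] at h
    have e : (univ.filter (fun ψ : V →ₗ[F] F => ψ x = 1 ∧ ψ y = 1)) =
        univ.filter (fun d => g d = (1, 1)) := by
      apply Finset.filter_congr
      intro ψ _
      show _ ↔ (ψ x, ψ y) = (1, 1)
      rw [Prod.mk.injEq]
    rw [e]
    exact h
  set P := (X ×ˢ X).filter (fun p => LinearIndependent F ![p.1, p.2] ∧ R p.1 p.2) with hP
  have hc1 : P.card * Q = (∑ p ∈ P, (univ.filter (fun ψ : V →ₗ[F] F =>
      ψ p.1 = 1 ∧ ψ p.2 = 1)).card) * q ^ 2 := by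
    rw [Finset.sum_mul, Finset.sum_congr rfl (fun p hp => h2 p.1 p.2
      (Finset.mem_filter.mp hp).2.1), Finset.sum_const, smul_eq_mul]
  have hc2 : ∑ p ∈ P, (univ.filter (fun ψ : V →ₗ[F] F => ψ p.1 = 1 ∧ ψ p.2 = 1)).card =
      ∑ ψ : V →ₗ[F] F, (P.filter (fun p => ψ p.1 = 1 ∧ ψ p.2 = 1)).card := by
    simp only [Finset.card_filter]
    exact Finset.sum_comm
  have hc3 : ∀ ψ : V →ₗ[F] F, (P.filter (fun p => ψ p.1 = 1 ∧ ψ p.2 = 1)).card ≤
      N * (cut F ψ X).card := by
    intro ψ
    refine le_trans (Finset.card_le_card ?_) (hyp ψ)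
    intro p hp
    obtain ⟨hp1, hp2, hp3⟩ := Finset.mem_filter.mp hp
    obtain ⟨hp4, hp5, hp6⟩ := Finset.mem_filter.mp hp1
    rw [Finset.mem_product] at hp4
    refine Finset.mem_filter.mpr ⟨Finset.mem_product.mpr ⟨?_, ?_⟩, ?_, hp6⟩
    · exact Finset.mem_filter.mpr ⟨hp4.1, hp2⟩
    · exact Finset.mem_filter.mpr ⟨hp4.2, hp3⟩
    · intro he
      have hinj := hp5.injective
      have : (0 : Fin 2) = 1 := hinj (by simpa using he)
      exact absurd this (by decide)
  have hc4 : ∑ ψ : V →ₗ[F] F, (cut F ψ X).card =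
      ∑ x ∈ X, (univ.filter (fun ψ : V →ₗ[F] F => ψ x = 1)).card := by
    unfold cut
    simp only [Finset.card_filter]
    exact Finset.sum_comm
  have hc5 : (∑ x ∈ X, (univ.filter (fun ψ : V →ₗ[F] F => ψ x = 1)).card) * q ≤ X.card * Q := by
    rw [Finset.sum_mul]
    calc _ ≤ ∑ _x ∈ X, Q := Finset.sum_le_sum (fun x _ => h1 x)
      _ = X.card * Q := by rw [Finset.sum_const, smul_eq_mul]
  have hfin : P.card * Q ≤ (q * N * X.card) * Q := by
    calc P.card * Q = (∑ ψ : V →ₗ[F] F,
          (P.filter (fun p => ψ p.1 = 1 ∧ ψ p.2 = 1)).card) * q ^ 2 := by rw [hc1, hc2]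
      _ ≤ (∑ ψ : V →ₗ[F] F, N * (cut F ψ X).card) * q ^ 2 :=
          Nat.mul_le_mul_right _ (Finset.sum_le_sum (fun ψ _ => hc3 ψ))
      _ = N * q * ((∑ x ∈ X, (univ.filter (fun ψ : V →ₗ[F] F => ψ x = 1)).card) * q) := by
          rw [← Finset.mul_sum, hc4]; ring
      _ ≤ N * q * (X.card * Q) := Nat.mul_le_mul_left _ hc5
      _ = _ := by ring
  exact Nat.le_of_mul_le_mul_right hfin hQ0

end MPed7341.KM
end

section
/-
MP_ed7341_co, frame geometries (helper55): random switching.
-/
set_option autoImplicit false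

namespace MPed7341.FG

open Submodule Finset

variable {F : Type} [Field F] [Fintype F] {r : ℕ}

/-- the support. -/
def supp [DecidableEq F] (a : Fin r → F) : Finset (Fin r) := univ.filter (fun i => a i ≠ 0)

open Classical in
/-- for a vector with two nonzero coordinates the equation `Σ a_i s_i = 0` has the right number
of solutions. -/
theorem count_bal (a : Fin r → F) (ha : (supp a).card = 2) :
    (univ.filter (fun s : Fin r → Fˣ => ∑ i, a i * (s i : F) = 0)).card *
      (Fintype.card F - 1) = Fintype.card (Fin r → Fˣ) := by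
  obtain ⟨i, j, hij, hs⟩ := Finset.card_eq_two.mp ha
  have hi : a i ≠ 0 := by
    have : i ∈ supp a := by rw [hs]; simp
    exact (Finset.mem_filter.mp this).2
  have hj : a j ≠ 0 := by
    have : j ∈ supp a := by rw [hs]; simp
    exact (Finset.mem_filter.mp this).2
  have hsum : ∀ s : Fin r → Fˣ, ∑ k, a k * (s k : F) = a i * s i + a j * s j := by
    intro s
    rw [← Finset.sum_subset (Finset.subset_univ (supp a))
      (fun k _ hk => by
        have : a k = 0 := by
          by_contra h
          exact hk (Finset.mem_filter.mpr ⟨Finset.mem_univ _, h⟩)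
        rw [this, zero_mul]), hs, Finset.sum_pair hij]
  let g : Additive (Fin r → Fˣ) →+ Additive Fˣ :=
    { toFun := fun s => Additive.ofMul ((Additive.toMul s) i * ((Additive.toMul s) j)⁻¹)
      map_zero' := by simp
      map_add' := by
        intro s t
        apply Additive.toMul.injective
        show (Additive.toMul s * Additive.toMul t) i * ((Additive.toMul s * Additive.toMul t) j)⁻¹ =
          ((Additive.toMul s) i * ((Additive.toMul s) j)⁻¹) *
            ((Additive.toMul t) i * ((Additive.toMul t) j)⁻¹)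
        rw [Pi.mul_apply, Pi.mul_apply, mul_inv, mul_mul_mul_comm] }
  have hg : Function.Surjective g := by
    intro c
    refine ⟨Additive.ofMul (Function.update (fun _ => 1) i (Additive.toMul c)), ?_⟩
    apply Additive.toMul.injective
    show (Function.update (fun _ => (1 : Fˣ)) i (Additive.toMul c)) i *
      ((Function.update (fun _ => (1 : Fˣ)) i (Additive.toMul c)) j)⁻¹ = Additive.toMul c
    rw [Function.update_self, Function.update_of_ne hij.symm]
    simp
  have hb : -(a j) / a i ≠ 0 := div_ne_zero (neg_ne_zero.mpr hj) hi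
  have h := KM.PSIM.fib g hg (Additive.ofMul (Units.mk0 _ hb))
  have e1 : Fintype.card (Additive Fˣ) = Fintype.card F - 1 := by
    rw [Fintype.card_additive, Fintype.card_units]
  have e2 : Fintype.card (Additive (Fin r → Fˣ)) = Fintype.card (Fin r → Fˣ) :=
    Fintype.card_additive _
  rw [e1, e2] at h
  rw [← h]
  congr 1
  apply Finset.card_bij (fun s _ => Additive.ofMul s)
  · intro s hs'
    refine Finset.mem_filter.mpr ⟨Finset.mem_univ _, ?_⟩
    have h1 := (Finset.mem_filter.mp hs').2
    rw [hsum] at h1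
    apply Additive.toMul.injective
    show s i * (s j)⁻¹ = Units.mk0 _ hb
    apply Units.ext
    rw [Units.val_mul, Units.val_inv_eq_inv_val, Units.val_mk0]
    have hsj : (s j : F) ≠ 0 := Units.ne_zero _
    field_simp
    linear_combination h1
  · intro s _ t _ hst
    exact Additive.ofMul.injective hst
  · intro s hs'
    refine ⟨Additive.toMul s, Finset.mem_filter.mpr ⟨Finset.mem_univ _, ?_⟩, rfl⟩
    have h1 := (Finset.mem_filter.mp hs').2
    have h2 : (Additive.toMul s) i * ((Additive.toMul s) j)⁻¹ = Units.mk0 _ hb :=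
      congrArg Additive.toMul h1
    have h3 := congrArg Units.val h2
    rw [Units.val_mul, Units.val_inv_eq_inv_val, Units.val_mk0] at h3
    rw [hsum]
    have hsj : (((Additive.toMul s) j : Fˣ) : F) ≠ 0 := Units.ne_zero _
    field_simp at h3
    linear_combination h3

end MPed7341.FG
end

section
/-
MP_ed7341_co, frame geometries (helper55): a coordinate with few elements.
-/
set_option autoImplicit false

namespace MPed7341.FG

open Submodule Finset

variable {F : Type} [Field F] [Fintype F] {r : ℕ}

open Classical in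
/-- a switching with many balanced elements. -/
theorem exists_switch (A : Finset (Fin r → F)) (hA : ∀ a ∈ A, (supp a).card = 2) :
    ∃ s : Fin r → Fˣ, A.card ≤ (Fintype.card F - 1) *
      (A.filter (fun a => ∑ i, a i * (s i : F) = 0)).card := by
  by_contra hcon
  push Not at hcon
  have h1 : ∑ s : Fin r → Fˣ, (A.filter (fun a => ∑ i, a i * (s i : F) = 0)).card =
      ∑ a ∈ A, (univ.filter (fun s : Fin r → Fˣ => ∑ i, a i * (s i : F) = 0)).card := by
    simp only [Finset.card_filter]
    exact Finset.sum_comm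
  have h2 : (∑ a ∈ A, (univ.filter (fun s : Fin r → Fˣ => ∑ i, a i * (s i : F) = 0)).card) *
      (Fintype.card F - 1) = A.card * Fintype.card (Fin r → Fˣ) := by
    rw [Finset.sum_mul, Finset.sum_congr rfl (fun a ha => count_bal a (hA a ha)),
      Finset.sum_const, smul_eq_mul]
  have h3 : (∑ s : Fin r → Fˣ, (A.filter (fun a => ∑ i, a i * (s i : F) = 0)).card) *
      (Fintype.card F - 1) < ∑ _s : Fin r → Fˣ, A.card := by
    rw [Finset.sum_mul]
    apply Finset.sum_lt_sum_of_nonempty Finset.univ_nonempty
    intro s _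
    rw [mul_comm]
    exact hcon s
  rw [h1, h2, Finset.sum_const, Finset.card_univ, smul_eq_mul, mul_comm] at h3
  exact lt_irrefl _ h3

/-- arithmetic. -/
theorem arith1 (Q g I J E b : ℕ) (hQ : 1 ≤ Q) (hJ : 1 ≤ J) (hE : E ≤ Q * b)
    (h : Q * (2 * g) * I ≤ J + 2 * E) : 2 * g * I < 2 * (b + J) := by
  have h1 : Q * (2 * g * I) < Q * (2 * (b + J)) := by
    have h2 : J < 2 * (Q * J) := by
      have : 1 * J ≤ Q * J := Nat.mul_le_mul_right _ hQ
      omega
    calc Q * (2 * g * I) = Q * (2 * g) * I := by ring
      _ ≤ J + 2 * E := h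
      _ < 2 * (Q * J) + 2 * (Q * b) := by omega
      _ = Q * (2 * (b + J)) := by ring
  exact Nat.lt_of_mul_lt_mul_left h1

theorem arith2 (Q g I E b : ℕ) (hQ : 1 ≤ Q) (hg : 1 ≤ g) (hI : 1 ≤ I) (hE : E ≤ Q * b)
    (h : Q * (2 * g) * I ≤ 2 * E) : 2 * g * (I - 1) < 2 * b := by
  have h1 : Q * (2 * g * I) ≤ Q * (2 * b) := by
    calc Q * (2 * g * I) = Q * (2 * g) * I := by ring
      _ ≤ 2 * E := h
      _ ≤ 2 * (Q * b) := by omega
      _ = Q * (2 * b) := by ring
  have h2 := Nat.le_of_mul_le_mul_left h1 (by omega)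
  obtain ⟨k, rfl⟩ : ∃ k, I = k + 1 := ⟨I - 1, by omega⟩
  rw [Nat.add_sub_cancel]
  have h3 : 2 * g * (k + 1) = 2 * g * k + 2 * g := by ring
  omega

open Classical in
/-- a simple set of vectors with at most two nonzero coordinates and without `M(K_m)`-minor:
some coordinate is nonzero on fewer than `(q-1) 2^(m-2)` elements. -/
theorem exists_small (A : Finset (Fin r → F)) (m : ℕ) (hm : 3 ≤ m) (hS : Simple F A)
    (hne : A.Nonempty) (hw : ∀ a ∈ A, (supp a).card ≤ 2) (hK : ¬ KM.HasK F m A) :
    ∃ i, (∃ a ∈ A, a i ≠ 0) ∧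
      (A.filter (fun a => a i ≠ 0)).card < (Fintype.card F - 1) * 2 ^ (m - 2) := by
  by_contra hcon
  push Not at hcon
  set Q := Fintype.card F - 1 with hQ
  have hQ1 : 1 ≤ Q := by
    have : 2 ≤ Fintype.card F := Fintype.one_lt_card
    omega
  have hgg : gg m = 2 ^ (m - 3) := if_neg (by omega)
  have hg1 : 1 ≤ gg m := by rw [hgg]; exact Nat.one_le_two_pow
  have hg2 : 2 ^ (m - 2) = 2 * gg m := by
    rw [hgg]
    have : m - 2 = (m - 3) + 1 := by omega
    rw [this, pow_succ, mul_comm]
  rw [hg2] at hcon
  have hpos : ∀ a ∈ A, 1 ≤ (supp a).card := by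
    intro a ha
    apply Finset.card_pos.mpr
    by_contra h
    rw [Finset.not_nonempty_iff_eq_empty] at h
    apply hS.1
    have : a = 0 := by
      funext i
      by_contra hi
      have : i ∈ supp a := Finset.mem_filter.mpr ⟨Finset.mem_univ _, hi⟩
      rw [h] at this
      exact absurd this (Finset.notMem_empty i)
    rw [← this]
    exact ha
  set I := univ.filter (fun i : Fin r => ∃ a ∈ A, a i ≠ 0) with hI
  set J := A.filter (fun a => (supp a).card = 1) with hJ
  set E := A.filter (fun a => (supp a).card = 2) with hE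
  have hEA : E ⊆ A := Finset.filter_subset _ _
  have hJA : J ⊆ A := Finset.filter_subset _ _
  -- double counting
  have hdc : Q * (2 * gg m) * I.card ≤ J.card + 2 * E.card := by
    have h1 : ∑ i ∈ I, (A.filter (fun a => a i ≠ 0)).card = ∑ a ∈ A, (supp a).card := by
      have h2 : ∑ i ∈ I, (A.filter (fun a => a i ≠ 0)).card =
          ∑ i : Fin r, (A.filter (fun a => a i ≠ 0)).card := by
        apply Finset.sum_subset (Finset.subset_univ _)
        intro i _ hi
        rw [Finset.card_eq_zero, Finset.filter_eq_empty_iff]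
        intro a ha h
        exact hi (Finset.mem_filter.mpr ⟨Finset.mem_univ _, a, ha, h⟩)
      rw [h2]
      simp only [supp, Finset.card_filter]
      exact Finset.sum_comm
    have h3 : Q * (2 * gg m) * I.card ≤ ∑ i ∈ I, (A.filter (fun a => a i ≠ 0)).card := by
      rw [mul_comm, ← smul_eq_mul]
      apply Finset.card_nsmul_le_sum
      intro i hi
      exact hcon i (Finset.mem_filter.mp hi).2
    have h4 : ∑ a ∈ A, (supp a).card = J.card + 2 * E.card := by
      have h5 : ∀ a ∈ A, (supp a).card = (if (supp a).card = 1 then 1 else 0) +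
          2 * (if (supp a).card = 2 then 1 else 0) := by
        intro a ha
        have h6 := hw a ha
        have h7 := hpos a ha
        have : (supp a).card = 1 ∨ (supp a).card = 2 := by omega
        rcases this with h | h <;> rw [h] <;> simp
      rw [Finset.sum_congr rfl h5, Finset.sum_add_distrib, ← Finset.mul_sum, hJ, hE,
        Finset.card_filter, Finset.card_filter]
    rw [← h4, ← h1]
    exact h3
  -- the switching
  obtain ⟨s, hs⟩ := exists_switch E (fun a ha => (Finset.mem_filter.mp ha).2)
  set bal := E.filter (fun a => ∑ i, a i * (s i : F) = 0) with hbal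
  let w : Option (Fin r) → (Fin r → F) := fun x => x.elim 0 (fun i => Pi.single i ((s i : F)⁻¹))
  have hsne : ∀ i, (s i : F) ≠ 0 := fun i => Units.ne_zero _
  have hsne' : ∀ i, (s i : F)⁻¹ ≠ 0 := fun i => inv_ne_zero (hsne i)
  -- independence
  have hAI : ∀ U : Finset (Option (Fin r)), AI (⊥ : Submodule F (Fin r → F)) U w := by
    intro U a h0 h1
    rw [Submodule.mem_bot] at h1
    have h2 : ∀ i : Fin r, some i ∈ U → a (some i) = 0 := by
      intro i hi
      have h3 := congrFun h1 i
      rw [Finset.sum_apply, Finset.sum_eq_single (some i)] at h3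
      · simp only [w, Option.elim_some, Pi.smul_apply, Pi.single_eq_same, smul_eq_mul,
          Pi.zero_apply] at h3
        exact (mul_eq_zero.mp h3).resolve_right (hsne' i)
      · intro x _ hx
        rcases x with _ | j
        · simp [w]
        · have : i ≠ j := fun h => hx (by rw [h])
          simp [w, Pi.single_eq_of_ne this]
      · intro h; exact absurd hi h
    intro x hx
    rcases x with _ | i
    · rw [Finset.sum_eq_single none] at h0
      · exact h0
      · intro y hy hyn
        rcases y with _ | j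
        · exact absurd rfl hyn
        · exact h2 j hy
      · intro h; exact absurd hx h
    · exact h2 i hx
  -- every element of `bal` and `J` is represented twice
  let R : (Fin r → F) → Option (Fin r) × Option (Fin r) → Prop :=
    fun a p => p.1 ≠ p.2 ∧ ∃ c : F, c ≠ 0 ∧ a = c • (w p.1 - w p.2)
  have hRE : ∀ a ∈ bal, ∃ x ∈ I.image some, ∃ y ∈ I.image some, R a (x, y) ∧ R a (y, x) := by
    intro a ha
    obtain ⟨haE, hab⟩ := Finset.mem_filter.mp ha
    obtain ⟨haA, hac⟩ := Finset.mem_filter.mp haE
    obtain ⟨i, j, hij, hsu⟩ := Finset.card_eq_two.mp hac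
    have hi : a i ≠ 0 := by
      have : i ∈ supp a := by rw [hsu]; simp
      exact (Finset.mem_filter.mp this).2
    have hj : a j ≠ 0 := by
      have : j ∈ supp a := by rw [hsu]; simp
      exact (Finset.mem_filter.mp this).2
    have hk : ∀ k, k ≠ i → k ≠ j → a k = 0 := by
      intro k h1 h2
      by_contra h
      have : k ∈ supp a := Finset.mem_filter.mpr ⟨Finset.mem_univ _, h⟩
      rw [hsu, Finset.mem_insert, Finset.mem_singleton] at this
      rcases this with h3 | h3
      · exact h1 h3
      · exact h2 h3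
    have hsum : a i * s i + a j * s j = 0 := by
      rw [← hab, ← Finset.sum_subset (Finset.subset_univ (supp a))
        (fun k _ hk => by
          have : a k = 0 := by
            by_contra h
            exact hk (Finset.mem_filter.mpr ⟨Finset.mem_univ _, h⟩)
          rw [this, zero_mul]), hsu, Finset.sum_pair hij]
    have haeq : a = (a i * s i) • (w (some i) - w (some j)) := by
      funext k
      simp only [w, Option.elim_some, Pi.smul_apply, Pi.sub_apply, smul_eq_mul]
      by_cases h1 : k = i
      · subst h1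
        rw [Pi.single_eq_same, Pi.single_eq_of_ne hij, sub_zero, mul_assoc,
          mul_inv_cancel₀ (hsne k), mul_one]
      · by_cases h2 : k = j
        · subst h2
          rw [Pi.single_eq_same, Pi.single_eq_of_ne h1, zero_sub, mul_neg]
          have : a i * s i = -(a k * s k) := eq_neg_of_add_eq_zero_left hsum
          rw [this, neg_mul, neg_neg, mul_assoc, mul_inv_cancel₀ (hsne k), mul_one]
        · rw [hk k h1 h2, Pi.single_eq_of_ne h1, Pi.single_eq_of_ne h2, sub_zero, mul_zero]
    have hne2 : (some i : Option (Fin r)) ≠ some j := fun h => hij (Option.some.inj h)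
    refine ⟨some i, Finset.mem_image_of_mem _ (Finset.mem_filter.mpr ⟨Finset.mem_univ _, a, haA,
      hi⟩), some j, Finset.mem_image_of_mem _ (Finset.mem_filter.mpr ⟨Finset.mem_univ _, a, haA,
      hj⟩), ⟨hne2, _, mul_ne_zero hi (hsne i), haeq⟩, ⟨hne2.symm, -(a i * s i),
      neg_ne_zero.mpr (mul_ne_zero hi (hsne i)), ?_⟩⟩
    simp only
    rw [neg_smul, ← smul_neg, neg_sub]
    exact haeq
  have hRJ : ∀ a ∈ J, ∃ x ∈ I.image some, R a (x, none) ∧ R a (none, x) := by
    intro a ha
    obtain ⟨haA, hac⟩ := Finset.mem_filter.mp ha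
    obtain ⟨i, hsu⟩ := Finset.card_eq_one.mp hac
    have hi : a i ≠ 0 := by
      have : i ∈ supp a := by rw [hsu]; simp
      exact (Finset.mem_filter.mp this).2
    have hk : ∀ k, k ≠ i → a k = 0 := by
      intro k h1
      by_contra h
      have : k ∈ supp a := Finset.mem_filter.mpr ⟨Finset.mem_univ _, h⟩
      rw [hsu, Finset.mem_singleton] at this
      exact h1 this
    have haeq : a = (a i * s i) • (w (some i) - w none) := by
      funext k
      simp only [w, Option.elim_some, Option.elim_none, Pi.smul_apply, Pi.sub_apply, smul_eq_mul,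
        Pi.zero_apply, sub_zero]
      by_cases h1 : k = i
      · subst h1
        rw [Pi.single_eq_same, mul_assoc, mul_inv_cancel₀ (hsne k), mul_one]
      · rw [hk k h1, Pi.single_eq_of_ne h1, mul_zero]
    refine ⟨some i, Finset.mem_image_of_mem _ (Finset.mem_filter.mpr ⟨Finset.mem_univ _, a, haA,
      hi⟩), ⟨by simp, _, mul_ne_zero hi (hsne i), haeq⟩, ⟨by simp, -(a i * s i),
      neg_ne_zero.mpr (mul_ne_zero hi (hsne i)), ?_⟩⟩
    simp only
    rw [neg_smul, ← smul_neg, neg_sub]
    exact haeq
  -- different elements are represented by different pairs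
  have hRinj : ∀ a ∈ A, ∀ a' ∈ A, ∀ p, R a p → R a' p → a = a' := by
    rintro a ha a' ha' p ⟨-, c, hc, h1⟩ ⟨-, c', hc', h2⟩
    refine hS.2 a' ha' a ha (c * c'⁻¹) ?_
    rw [h2, smul_smul, mul_assoc, inv_mul_cancel₀ hc', mul_one]
    exact h1
  have hcount : ∀ (B : Finset (Fin r → F)) (U : Finset (Option (Fin r))), B ⊆ A →
      (∀ a ∈ B, ∃ x ∈ U, ∃ y ∈ U, R a (x, y) ∧ R a (y, x)) →
      2 * B.card ≤ (ep (⊥ : Submodule F (Fin r → F)) A U w).card := by
    intro B U hBA hB
    have h1 : ∀ a ∈ B, 2 ≤ ((ep (⊥ : Submodule F (Fin r → F)) A U w).filter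
        (fun p => R a p)).card := by
      intro a ha
      obtain ⟨x, hx, y, hy, h2, h3⟩ := hB a ha
      have hmem : ∀ p, p.1 ∈ U → p.2 ∈ U → R a p → p ∈ (ep (⊥ : Submodule F (Fin r → F)) A U
          w).filter (fun p => R a p) := by
        rintro p hp1 hp2 ⟨hp3, c, hc, hp4⟩
        refine Finset.mem_filter.mpr ⟨mem_ep.mpr ⟨hp1, hp2, hp3, a, hBA ha, c, hc, ?_⟩, hp3, c,
          hc, hp4⟩
        rw [← hp4, sub_self]
        exact Submodule.zero_mem _
      have hsub : ({(x, y), (y, x)} : Finset (Option (Fin r) × Option (Fin r))) ⊆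
          (ep (⊥ : Submodule F (Fin r → F)) A U w).filter (fun p => R a p) := by
        intro p hp
        rw [Finset.mem_insert, Finset.mem_singleton] at hp
        rcases hp with rfl | rfl
        · exact hmem _ hx hy h2
        · exact hmem _ hy hx h3
      refine le_trans ?_ (Finset.card_le_card hsub)
      rw [Finset.card_pair]
      intro h
      exact h2.1 (Prod.mk.inj h).1
    have h4 : (B.biUnion (fun a => (ep (⊥ : Submodule F (Fin r → F)) A U w).filter
        (fun p => R a p))).card = ∑ a ∈ B, ((ep (⊥ : Submodule F (Fin r → F)) A U w).filter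
        (fun p => R a p)).card := by
      apply Finset.card_biUnion
      intro a ha a' ha' haa
      rw [Function.onFun, Finset.disjoint_left]
      intro p hp hp'
      exact haa (hRinj a (hBA ha) a' (hBA ha') p (Finset.mem_filter.mp hp).2
        (Finset.mem_filter.mp hp').2)
    have h5 : (B.biUnion (fun a => (ep (⊥ : Submodule F (Fin r → F)) A U w).filter
        (fun p => R a p))).card ≤ (ep (⊥ : Submodule F (Fin r → F)) A U w).card := by
      apply Finset.card_le_card
      intro p hp
      obtain ⟨a, _, hp⟩ := Finset.mem_biUnion.mp hp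
      exact (Finset.mem_filter.mp hp).1
    have h6 : B.card • 2 ≤ ∑ a ∈ B, ((ep (⊥ : Submodule F (Fin r → F)) A U w).filter
        (fun p => R a p)).card := Finset.card_nsmul_le_sum _ _ _ h1
    rw [smul_eq_mul] at h6
    omega
  have hIne : 1 ≤ I.card := by
    obtain ⟨a, ha⟩ := hne
    have h1 := hpos a ha
    obtain ⟨i, hi⟩ := Finset.card_pos.mp h1
    exact Finset.card_pos.mpr ⟨i, Finset.mem_filter.mpr ⟨Finset.mem_univ _, a, ha,
      (Finset.mem_filter.mp hi).2⟩⟩
  have hIim : (I.image some).card = I.card :=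
    Finset.card_image_of_injective _ (Option.some_injective _)
  have hbalA : bal ⊆ A := (Finset.filter_subset _ _).trans hEA
  by_cases hJ0 : J = ∅
  · -- no joints
    apply hK
    apply hasK A m (by omega) (I.image some) w (hAI _)
    rw [hIim]
    have h1 := hcount bal (I.image some) hbalA hRE
    have h2 : J.card = 0 := by rw [hJ0]; rfl
    rw [h2, zero_add] at hdc
    exact lt_of_lt_of_le (arith2 Q (gg m) I.card E.card bal.card hQ1 hg1 hIne hs hdc) h1
  · apply hK
    apply hasK A m (by omega) (insert none (I.image some)) w (hAI _)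
    have h0 : (none : Option (Fin r)) ∉ I.image some := by simp
    rw [Finset.card_insert_of_notMem h0, hIim, Nat.add_sub_cancel]
    have hJpos : 1 ≤ J.card := Finset.card_pos.mpr (Finset.nonempty_iff_ne_empty.mpr hJ0)
    have hdisj : Disjoint bal J := by
      rw [Finset.disjoint_left]
      intro a h1 h2
      have h3 := (Finset.mem_filter.mp (Finset.mem_filter.mp h1).1).2
      have h4 := (Finset.mem_filter.mp h2).2
      omega
    have h1 := hcount (bal ∪ J) (insert none (I.image some)) (Finset.union_subset hbalA hJA) (by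
      intro a ha
      rcases Finset.mem_union.mp ha with ha | ha
      · obtain ⟨x, hx, y, hy, h⟩ := hRE a ha
        exact ⟨x, Finset.mem_insert_of_mem hx, y, Finset.mem_insert_of_mem hy, h⟩
      · obtain ⟨x, hx, h⟩ := hRJ a ha
        exact ⟨x, Finset.mem_insert_of_mem hx, none, Finset.mem_insert_self _ _, h⟩)
    rw [Finset.card_union_of_disjoint hdisj] at h1
    exact lt_of_lt_of_le (arith1 Q (gg m) I.card J.card E.card bal.card hQ1 hJpos hs hdc) h1

end MPed7341.FG
end

section
/-
MP_ed7341_co, frame geometries and their lifts (helper55): random switching with `k` extra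
coordinates.
-/
set_option autoImplicit false

namespace MPed7341.FG

open Submodule Finset

variable {F : Type} [Field F] [Fintype F] {r : ℕ}

/-- the vector without the coordinates in `K`. -/
def out (K : Finset (Fin r)) (a : Fin r → F) : Fin r → F := fun i => if i ∈ K then 0 else a i

theorem mem_supp_out [DecidableEq F] {K : Finset (Fin r)} {a : Fin r → F} {i : Fin r} :
    i ∈ supp (out K a) ↔ i ∉ K ∧ a i ≠ 0 := by
  unfold supp out
  rw [Finset.mem_filter]
  constructor
  · rintro ⟨-, h⟩
    by_cases hi : i ∈ K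
    · simp [hi] at h
    · rw [if_neg hi] at h
      exact ⟨hi, h⟩
  · rintro ⟨h1, h2⟩
    exact ⟨Finset.mem_univ _, by rw [if_neg h1]; exact h2⟩

open Classical in
/-- the additive part of the switching. -/
theorem count_add (K : Finset (Fin r)) (a : Fin r → F) (s : Fin r → Fˣ)
    (ha : (supp (out K a)).Nonempty) :
    (univ.filter (fun t : Fin r → {l // l ∈ K} → F =>
      ∀ l : {l // l ∈ K}, ∑ i, out K a i * (s i : F) * t i l = a l)).card *
      (Fintype.card F) ^ K.card = Fintype.card (Fin r → {l // l ∈ K} → F) := by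
  obtain ⟨j, hj⟩ := ha
  have hj' : out K a j ≠ 0 := (Finset.mem_filter.mp hj).2
  let g : (Fin r → {l // l ∈ K} → F) →+ ({l // l ∈ K} → F) :=
    { toFun := fun t l => ∑ i, out K a i * (s i : F) * t i l
      map_zero' := by
        funext l
        simp
      map_add' := by
        intro t t'
        funext l
        simp only [Pi.add_apply, mul_add, Finset.sum_add_distrib] }
  have hg : Function.Surjective g := by
    intro c
    refine ⟨fun i l => if i = j then (out K a j * (s j : F))⁻¹ * c l else 0, ?_⟩
    funext l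
    show ∑ i, out K a i * (s i : F) * (if i = j then (out K a j * (s j : F))⁻¹ * c l else 0) = c l
    rw [Finset.sum_eq_single j]
    · rw [if_pos rfl, ← mul_assoc, mul_inv_cancel₀ (mul_ne_zero hj' (Units.ne_zero _)), one_mul]
    · intro i _ hi
      rw [if_neg hi, mul_zero]
    · intro h; exact absurd (Finset.mem_univ _) h
  have h := KM.PSIM.fib g hg (fun l => a l)
  rw [Fintype.card_fun (α := {l // l ∈ K}), Fintype.card_coe] at h
  rw [← h]
  congr 2
  apply Finset.filter_congr
  intro t _
  constructor
  · intro h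
    funext l
    exact h l
  · intro h l
    exact congrFun h l

open Classical in
/-- balanced elements. -/
def Bal (K : Finset (Fin r)) (s : Fin r → Fˣ) (t : Fin r → {l // l ∈ K} → F)
    (a : Fin r → F) : Prop :=
  ((supp (out K a)).card = 2 → ∑ i, out K a i * (s i : F) = 0) ∧
    ∀ l : {l // l ∈ K}, ∑ i, out K a i * (s i : F) * t i l = a l

open Classical in
theorem count_two (K : Finset (Fin r)) (a : Fin r → F) (ha : (supp (out K a)).card = 2) :
    (univ.filter (fun st : (Fin r → Fˣ) × (Fin r → {l // l ∈ K} → F) =>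
      Bal K st.1 st.2 a)).card * ((Fintype.card F) ^ K.card * (Fintype.card F - 1)) =
      Fintype.card ((Fin r → Fˣ) × (Fin r → {l // l ∈ K} → F)) := by
  have hne : (supp (out K a)).Nonempty := Finset.card_pos.mp (by omega)
  have h1 : (univ.filter (fun st : (Fin r → Fˣ) × (Fin r → {l // l ∈ K} → F) =>
      Bal K st.1 st.2 a)).card =
      ∑ s ∈ univ.filter (fun s : Fin r → Fˣ => ∑ i, out K a i * (s i : F) = 0),
        (univ.filter (fun t : Fin r → {l // l ∈ K} → F =>
          ∀ l : {l // l ∈ K}, ∑ i, out K a i * (s i : F) * t i l = a l)).card := by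
    rw [Finset.card_eq_sum_card_fiberwise (f := Prod.fst)
      (t := univ.filter (fun s : Fin r → Fˣ => ∑ i, out K a i * (s i : F) = 0))]
    · refine Finset.sum_congr rfl fun s hs => ?_
      apply Finset.card_bij (fun st _ => st.2)
      · intro st hst
        obtain ⟨h1, h2⟩ := Finset.mem_filter.mp hst
        subst h2
        exact Finset.mem_filter.mpr ⟨Finset.mem_univ _, (Finset.mem_filter.mp h1).2.2⟩
      · intro st hst st' hst' h
        exact Prod.ext ((Finset.mem_filter.mp hst).2.trans (Finset.mem_filter.mp hst').2.symm) h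
      · intro t ht
        refine ⟨(s, t), Finset.mem_filter.mpr ⟨Finset.mem_filter.mpr ⟨Finset.mem_univ _,
          fun _ => (Finset.mem_filter.mp hs).2, (Finset.mem_filter.mp ht).2⟩, rfl⟩, rfl⟩
    · intro st hst
      exact Finset.mem_coe.mpr (Finset.mem_filter.mpr ⟨Finset.mem_univ _,
        (Finset.mem_filter.mp hst).2.1 ha⟩)
  have h2 : ∀ s ∈ univ.filter (fun s : Fin r → Fˣ => ∑ i, out K a i * (s i : F) = 0),
      (univ.filter (fun t : Fin r → {l // l ∈ K} → F =>
          ∀ l : {l // l ∈ K}, ∑ i, out K a i * (s i : F) * t i l = a l)).card *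
        (Fintype.card F) ^ K.card = Fintype.card (Fin r → {l // l ∈ K} → F) :=
    fun s _ => count_add K a s hne
  rw [h1, ← mul_assoc, Finset.sum_mul, Finset.sum_congr rfl h2, Finset.sum_const, smul_eq_mul,
    mul_right_comm, count_bal (out K a) ha, Fintype.card_prod]

open Classical in
theorem count_one (K : Finset (Fin r)) (a : Fin r → F) (ha : (supp (out K a)).card = 1) :
    (univ.filter (fun st : (Fin r → Fˣ) × (Fin r → {l // l ∈ K} → F) =>
      Bal K st.1 st.2 a)).card * (Fintype.card F) ^ K.card =
      Fintype.card ((Fin r → Fˣ) × (Fin r → {l // l ∈ K} → F)) := by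
  have hne : (supp (out K a)).Nonempty := Finset.card_pos.mp (by omega)
  have h1 : (univ.filter (fun st : (Fin r → Fˣ) × (Fin r → {l // l ∈ K} → F) =>
      Bal K st.1 st.2 a)).card =
      ∑ s : Fin r → Fˣ,
        (univ.filter (fun t : Fin r → {l // l ∈ K} → F =>
          ∀ l : {l // l ∈ K}, ∑ i, out K a i * (s i : F) * t i l = a l)).card := by
    rw [Finset.card_eq_sum_card_fiberwise (f := Prod.fst) (t := univ)]
    · refine Finset.sum_congr rfl fun s hs => ?_
      apply Finset.card_bij (fun st _ => st.2)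
      · intro st hst
        obtain ⟨h1, h2⟩ := Finset.mem_filter.mp hst
        subst h2
        exact Finset.mem_filter.mpr ⟨Finset.mem_univ _, (Finset.mem_filter.mp h1).2.2⟩
      · intro st hst st' hst' h
        exact Prod.ext ((Finset.mem_filter.mp hst).2.trans (Finset.mem_filter.mp hst').2.symm) h
      · intro t ht
        refine ⟨(s, t), Finset.mem_filter.mpr ⟨Finset.mem_filter.mpr ⟨Finset.mem_univ _,
          fun h => absurd h (by omega), (Finset.mem_filter.mp ht).2⟩, rfl⟩, rfl⟩
    · intro st _
      exact Finset.mem_coe.mpr (Finset.mem_univ _)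
  rw [h1, Finset.sum_mul, Finset.sum_congr rfl (fun s _ => count_add K a s hne),
    Finset.sum_const, smul_eq_mul, Fintype.card_prod, Finset.card_univ]

open Classical in
/-- a switching with many balanced elements. -/
theorem exists_switch2 (K : Finset (Fin r)) (J E : Finset (Fin r → F))
    (hJ : ∀ a ∈ J, (supp (out K a)).card = 1) (hE : ∀ a ∈ E, (supp (out K a)).card = 2) :
    ∃ (s : Fin r → Fˣ) (t : Fin r → {l // l ∈ K} → F),
      E.card + (Fintype.card F - 1) * J.card ≤
        (Fintype.card F) ^ K.card * (Fintype.card F - 1) *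
          ((E.filter (fun a => Bal K s t a)).card + (J.filter (fun a => Bal K s t a)).card) := by
  by_contra hcon
  push Not at hcon
  set Q := Fintype.card F - 1 with hQ
  set P := (Fintype.card F) ^ K.card with hP
  set N := Fintype.card ((Fin r → Fˣ) × (Fin r → {l // l ∈ K} → F)) with hN
  have hsw : ∀ B : Finset (Fin r → F),
      ∑ st : (Fin r → Fˣ) × (Fin r → {l // l ∈ K} → F),
        (B.filter (fun a => Bal K st.1 st.2 a)).card =
      ∑ a ∈ B, (univ.filter (fun st : (Fin r → Fˣ) × (Fin r → {l // l ∈ K} → F) =>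
        Bal K st.1 st.2 a)).card := by
    intro B
    simp only [Finset.card_filter]
    exact Finset.sum_comm
  have h2 : (∑ st : (Fin r → Fˣ) × (Fin r → {l // l ∈ K} → F),
        (E.filter (fun a => Bal K st.1 st.2 a)).card) * (P * Q) = E.card * N := by
    rw [hsw, Finset.sum_mul, Finset.sum_congr rfl (fun a ha => count_two K a (hE a ha)),
      Finset.sum_const, smul_eq_mul]
  have h3 : (∑ st : (Fin r → Fˣ) × (Fin r → {l // l ∈ K} → F),
        (J.filter (fun a => Bal K st.1 st.2 a)).card) * P = J.card * N := by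
    rw [hsw, Finset.sum_mul, Finset.sum_congr rfl (fun a ha => count_one K a (hJ a ha)),
      Finset.sum_const, smul_eq_mul]
  have h4 : ∑ st : (Fin r → Fˣ) × (Fin r → {l // l ∈ K} → F), P * Q *
        ((E.filter (fun a => Bal K st.1 st.2 a)).card +
          (J.filter (fun a => Bal K st.1 st.2 a)).card) <
      ∑ _st : (Fin r → Fˣ) × (Fin r → {l // l ∈ K} → F), (E.card + Q * J.card) := by
    apply Finset.sum_lt_sum_of_nonempty Finset.univ_nonempty
    rintro ⟨s, t⟩ _
    exact hcon s t
  rw [← Finset.mul_sum, Finset.sum_add_distrib, Finset.sum_const, Finset.card_univ,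
    smul_eq_mul, mul_add] at h4
  have h5 : P * Q * (∑ st : (Fin r → Fˣ) × (Fin r → {l // l ∈ K} → F),
        (E.filter (fun a => Bal K st.1 st.2 a)).card) = E.card * N := by
    rw [mul_comm]; exact h2
  have h6 : P * Q * (∑ st : (Fin r → Fˣ) × (Fin r → {l // l ∈ K} → F),
        (J.filter (fun a => Bal K st.1 st.2 a)).card) = Q * (J.card * N) := by
    rw [← h3]; ring
  rw [h5, h6] at h4
  have h7 : E.card * N + Q * (J.card * N) = N * (E.card + Q * J.card) := by ring
  rw [h7] at h4
  exact lt_irrefl _ h4

end MPed7341.FG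
end

section
/-
MP_ed7341_co, all m (helper55): the final theorem.
-/
set_option autoImplicit false

namespace MPed7341.KM

/-- the critical exponent of a set of nonzero vectors without `M(K_m)`-minor is at most
`2 (4 m L q^2)^(m-3) - 1`, `L = log_2 (q m) + 1`. -/
theorem final (F : Type) [Field F] [Fintype F] (m r : ℕ) (hm : 3 ≤ m)
    (S : Finset (Fin r → F)) (h0 : (0 : Fin r → F) ∉ S)
    (hS : ¬ ∃ (C : Finset (Fin r → F)) (g : {p : Fin m × Fin m // p.1 < p.2} → (Fin r → F)),
        C ⊆ S ∧ (∀ e, g e ∈ S) ∧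
        ∀ T : Set {p : Fin m × Fin m // p.1 < p.2},
          (LinearIndependent F (T.restrict
              (fun e => (Submodule.span F (C : Set (Fin r → F))).mkQ (g e))) ↔
           LinearIndependent F (T.restrict
              (fun e => ((Pi.single e.1.1 (1 : F) : Fin m → F) -
                (Pi.single e.1.2 (1 : F) : Fin m → F)))))) :
    ∃ f : Fin (2 * (4 * m * (Nat.log 2 (Fintype.card F * m) + 1) * Fintype.card F ^ 2) ^ (m - 3)
      - 1) → Module.Dual F (Fin r → F), ∀ x ∈ S, ∃ i, f i x ≠ 0 := by
  have hMAIN : SpecMAIN := MAIN MPR SHA SHB CNT (LNK PSI) SUM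
  have hTOP : SpecTOP := TOP PSI hMAIN
  have hCOV : SpecCOV := COV MAP hTOP (SHZ MAP) LIF
  exact assembly (COL MAP hCOV) NUM F m hm (Fin r → F) S (FRO F m r S hS) h0

end MPed7341.KM
end

section
/-
MP_ed7341_co, frame geometries (helper55): greedy colouring and the final theorem.
-/
set_option autoImplicit false

namespace MPed7341.FG

open Submodule Finset

open Classical in
/-- greedy colouring with small cocircuits. -/
theorem greedy {F : Type} [Field F] [Fintype F] {V : Type} [AddCommGroup V] [Module F V] (c : ℕ)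
    (P : Finset V → Prop) (hP : ∀ A B, A ⊆ B → P B → P A)
    (hsm : ∀ A, P A → Simple F A → A.Nonempty → ∃ f : Module.Dual F V, (∃ a ∈ A, f a ≠ 0) ∧
      (A.filter (fun a => f a ≠ 0)).card < Fintype.card F ^ c) :
    ∀ E : Finset V, P E → (0 : V) ∉ E →
      ∃ f : Fin c → Module.Dual F V, ∀ x ∈ E, ∃ i, f i x ≠ 0 := by
  intro E
  induction hr : rk F E using Nat.strong_induction_on generalizing E with
  | _ r ih =>
    intro hPE h0
    by_cases hE : E = ∅
    · subst hE
      exact ⟨fun _ => 0, by simp⟩
    · obtain ⟨A, hAE, hS, hrep⟩ := ColM.exists_reps (F := F) E h0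
      have hAne : A.Nonempty := by
        obtain ⟨e, he⟩ := Finset.nonempty_iff_ne_empty.mpr hE
        obtain ⟨a, ha, _⟩ := hrep e he
        exact ⟨a, ha⟩
      obtain ⟨f, ⟨a, haA, hfa⟩, hsupp⟩ := hsm A (hP A E hAE hPE) hS hAne
      obtain ⟨φ, hφ⟩ := ih (rk F (E.filter (fun e => f e = 0)))
        (by
          rw [← hr]
          exact ColM.rk_lt f (Finset.filter_subset _ _) (fun e he => (Finset.mem_filter.mp he).2)
            a (hAE haA) hfa) (E.filter (fun e => f e = 0)) rfl
        (hP _ _ (Finset.filter_subset _ _) hPE)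
        (fun h => h0 (Finset.filter_subset _ _ h))
      -- the bad shifts
      let bad : Finset (Fin c → F) := (A.filter (fun a => f a ≠ 0)).image
        (fun a => fun i => - (φ i a) / f a)
      have hbad : bad.card < Fintype.card (Fin c → F) := by
        rw [Fintype.card_fun, Fintype.card_fin]
        exact Finset.card_image_le.trans_lt hsupp
      obtain ⟨w, hw⟩ : ∃ w, w ∉ bad := by
        by_contra hcon
        push Not at hcon
        have : bad = Finset.univ := by
          ext w
          simp [hcon w]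
        rw [this, Finset.card_univ] at hbad
        exact lt_irrefl _ hbad
      refine ⟨fun i => φ i + w i • f, ?_⟩
      intro x hx
      by_cases hfx : f x = 0
      · obtain ⟨i, hi⟩ := hφ x (Finset.mem_filter.mpr ⟨hx, hfx⟩)
        refine ⟨i, ?_⟩
        simpa [hfx] using hi
      · by_contra hcon
        push Not at hcon
        apply hw
        obtain ⟨b, hb, u, hc, hxb⟩ := hrep x hx
        have hfb : f b ≠ 0 := by
          intro h
          apply hfx
          rw [hxb, map_smul, h, smul_zero]
        refine Finset.mem_image.mpr ⟨b, Finset.mem_filter.mpr ⟨hb, hfb⟩, ?_⟩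
        funext i
        have h := hcon i
        rw [hxb] at h
        simp only [LinearMap.add_apply, LinearMap.smul_apply, map_smul, smul_eq_mul] at h
        have h2 : u * (φ i b + w i * f b) = 0 := by
          linear_combination h
        have h3 : φ i b + w i * f b = 0 := by
          rcases mul_eq_zero.mp h2 with h | h
          · exact absurd h hc
          · exact h
        rw [div_eq_iff hfb]
        linear_combination -h3

theorem HasK.mono {F : Type} [Field F] {V : Type} [AddCommGroup V] [Module F V] {m : ℕ}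
    {E E' : Finset V} (h : E ⊆ E') (hE : KM.HasK F m E) : KM.HasK F m E' := by
  obtain ⟨C, w, hC, hI, hH⟩ := hE
  refine ⟨C, w, hC.trans h, hI, fun i j hij => ?_⟩
  obtain ⟨e, he, c, hc, hm⟩ := hH i j hij
  exact ⟨e, h he, c, hc, hm⟩

open Classical in
theorem frame_pow {F : Type} [Field F] [Fintype F] (m r c : ℕ) (hm : 3 ≤ m)
    (hc : (Fintype.card F - 1) * 2 ^ (m - 2) ≤ Fintype.card F ^ c)
    (S : Finset (Fin r → F)) (h0 : (0 : Fin r → F) ∉ S)
    (hw : ∀ x ∈ S, (univ.filter (fun i => x i ≠ 0)).card ≤ 2) (hK : ¬ KM.HasK F m S) :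
    ∃ f : Fin c → Module.Dual F (Fin r → F), ∀ x ∈ S, ∃ i, f i x ≠ 0 := by
  refine greedy c (fun A => (∀ x ∈ A, (univ.filter (fun i => x i ≠ 0)).card ≤ 2) ∧
    ¬ KM.HasK F m A) ?_ ?_ S ⟨hw, hK⟩ h0
  · intro A B hAB hB
    exact ⟨fun x hx => hB.1 x (hAB hx), fun h => hB.2 (HasK.mono hAB h)⟩
  · rintro A ⟨h1, h2⟩ hS hne
    obtain ⟨i, hi, hcard⟩ := exists_small A m hm hS hne (by
      intro a ha
      have := h1 a ha
      unfold supp
      convert this) h2
    exact ⟨LinearMap.proj i, hi, lt_of_lt_of_le hcard hc⟩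

theorem pow_ineq (q m : ℕ) (hq : 2 ≤ q) (hm : 4 ≤ m) : (q - 1) * 2 ^ (m - 2) ≤ q ^ (m - 2) := by
  obtain ⟨k, rfl⟩ : ∃ k, m = k + 4 := ⟨m - 4, by omega⟩
  obtain ⟨p, rfl⟩ : ∃ p, q = p + 2 := ⟨q - 2, by omega⟩
  have e1 : k + 4 - 2 = k + 2 := by omega
  have e2 : p + 2 - 1 = p + 1 := by omega
  rw [e1, e2]
  have h1 : (2 : ℕ) ^ k ≤ (p + 2) ^ k := Nat.pow_le_pow_left (by omega) k
  calc (p + 1) * 2 ^ (k + 2) = (4 * (p + 1)) * 2 ^ k := by ring
    _ ≤ ((p + 2) ^ 2) * (p + 2) ^ k := by
      apply Nat.mul_le_mul _ h1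
      nlinarith [Nat.zero_le (p * p)]
    _ = (p + 2) ^ (k + 2) := by ring

/-- frame geometries. -/
theorem frame (F : Type) [Field F] [Fintype F] [DecidableEq F] (m r c : ℕ) (hm : 3 ≤ m)
    (hc : c = m - 2 ∨ (Fintype.card F - 1) * 2 ^ (m - 2) ≤ Fintype.card F ^ c)
    (S : Finset (Fin r → F)) (h0 : (0 : Fin r → F) ∉ S)
    (hw : ∀ x ∈ S, (univ.filter (fun i => x i ≠ 0)).card ≤ 2)
    (hS : ¬ ∃ (C : Finset (Fin r → F)) (g : {p : Fin m × Fin m // p.1 < p.2} → (Fin r → F)),
        C ⊆ S ∧ (∀ e, g e ∈ S) ∧
        ∀ T : Set {p : Fin m × Fin m // p.1 < p.2},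
          (LinearIndependent F (T.restrict
              (fun e => (Submodule.span F (C : Set (Fin r → F))).mkQ (g e))) ↔
           LinearIndependent F (T.restrict
              (fun e => ((Pi.single e.1.1 (1 : F) : Fin m → F) -
                (Pi.single e.1.2 (1 : F) : Fin m → F)))))) :
    ∃ f : Fin c → Module.Dual F (Fin r → F), ∀ x ∈ S, ∃ i, f i x ≠ 0 := by
  have hK : ¬ KM.HasK F m S := KM.FRO F m r S hS
  rcases hc with rfl | hc
  · rcases eq_or_lt_of_le hm with rfl | hm4
    · have h := KM.final F 3 r le_rfl S h0 hS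
      have e : 2 * (4 * 3 * (Nat.log 2 (Fintype.card F * 3) + 1) * Fintype.card F ^ 2) ^ (3 - 3)
          - 1 = 3 - 2 := by norm_num
      rw [e] at h
      exact h
    · exact frame_pow m r (m - 2) hm (pow_ineq _ m Fintype.one_lt_card hm4) S h0
        (fun x hx => by convert hw x hx) hK
  · exact frame_pow m r c hm hc S h0 (fun x hx => by convert hw x hx) hK

end MPed7341.FG
end

section
/-
MP_ed7341_co, frame geometries and their lifts (helper55): a coordinate with few elements.
-/
set_option autoImplicit false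

namespace MPed7341.FG

open Submodule Finset

variable {F : Type} [Field F] [Fintype F] {r : ℕ}

/-- arithmetic. -/
theorem arith3 (P Q g I J E bE bJ : ℕ) (hQ : 1 ≤ Q) (hJ : 1 ≤ J)
    (hE : E + Q * J ≤ P * Q * (bE + bJ))
    (h : P * Q * (2 * g) * I ≤ J + 2 * E) : 2 * g * I < 2 * (bE + bJ) := by
  have h1 : (P * Q) * (2 * g * I) < (P * Q) * (2 * (bE + bJ)) := by
    have h2 : J < 2 * (Q * J) := by
      have : 1 * J ≤ Q * J := Nat.mul_le_mul_right _ hQ
      omega
    calc (P * Q) * (2 * g * I) = P * Q * (2 * g) * I := by ring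
      _ ≤ J + 2 * E := h
      _ < 2 * (Q * J) + 2 * E := by omega
      _ = 2 * (E + Q * J) := by ring
      _ ≤ 2 * (P * Q * (bE + bJ)) := by omega
      _ = (P * Q) * (2 * (bE + bJ)) := by ring
  exact Nat.lt_of_mul_lt_mul_left h1

theorem arith4 (P Q g I E b : ℕ) (hP : 1 ≤ P) (hQ : 1 ≤ Q) (hg : 1 ≤ g) (hI : 1 ≤ I)
    (hE : E ≤ P * Q * b)
    (h : P * Q * (2 * g) * I ≤ 2 * E) : 2 * g * (I - 1) < 2 * b := by
  have h1 : (P * Q) * (2 * g * I) ≤ (P * Q) * (2 * b) := by
    calc (P * Q) * (2 * g * I) = P * Q * (2 * g) * I := by ring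
      _ ≤ 2 * E := h
      _ ≤ 2 * (P * Q * b) := by omega
      _ = (P * Q) * (2 * b) := by ring
  have h2 := Nat.le_of_mul_le_mul_left h1 (Nat.mul_pos hP hQ)
  obtain ⟨k, rfl⟩ : ∃ k, I = k + 1 := ⟨I - 1, by omega⟩
  rw [Nat.add_sub_cancel]
  have h3 : 2 * g * (k + 1) = 2 * g * k + 2 * g := by ring
  omega

open Classical in
/-- a simple set of vectors with at most two nonzero coordinates outside `K` and without
`M(K_m)`-minor, not all zero outside `K`: some coordinate outside `K` is nonzero on fewer than
`q^|K| (q-1) 2^(m-2)` elements. -/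
theorem exists_small2 (K : Finset (Fin r)) (A : Finset (Fin r → F)) (m : ℕ) (hm : 3 ≤ m)
    (hS : Simple F A) (hne : ∃ a ∈ A, ∃ i, i ∉ K ∧ a i ≠ 0)
    (hw : ∀ a ∈ A, (supp (out K a)).card ≤ 2) (hK : ¬ KM.HasK F m A) :
    ∃ i, (∃ a ∈ A, a i ≠ 0) ∧ (A.filter (fun a => a i ≠ 0)).card <
      (Fintype.card F) ^ K.card * (Fintype.card F - 1) * 2 ^ (m - 2) := by
  by_contra hcon
  push Not at hcon
  set Q := Fintype.card F - 1 with hQ
  set P := (Fintype.card F) ^ K.card with hP
  have hQ1 : 1 ≤ Q := by
    have : 2 ≤ Fintype.card F := Fintype.one_lt_card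
    omega
  have hP1 : 1 ≤ P := Nat.one_le_pow _ _ Fintype.card_pos
  have hgg : gg m = 2 ^ (m - 3) := if_neg (by omega)
  have hg1 : 1 ≤ gg m := by rw [hgg]; exact Nat.one_le_two_pow
  have hg2 : 2 ^ (m - 2) = 2 * gg m := by
    rw [hgg]
    have : m - 2 = (m - 3) + 1 := by omega
    rw [this, pow_succ, mul_comm]
  rw [hg2] at hcon
  set I := univ.filter (fun i : Fin r => i ∉ K ∧ ∃ a ∈ A, a i ≠ 0) with hI
  set J := A.filter (fun a => (supp (out K a)).card = 1) with hJ
  set E := A.filter (fun a => (supp (out K a)).card = 2) with hE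
  have hEA : E ⊆ A := Finset.filter_subset _ _
  have hJA : J ⊆ A := Finset.filter_subset _ _
  -- double counting
  have hdc : P * Q * (2 * gg m) * I.card ≤ J.card + 2 * E.card := by
    have h1 : ∑ i ∈ I, (A.filter (fun a => a i ≠ 0)).card = ∑ a ∈ A, (supp (out K a)).card := by
      have h2 : ∑ i ∈ I, (A.filter (fun a => a i ≠ 0)).card =
          ∑ i ∈ I, (A.filter (fun a => i ∉ K ∧ a i ≠ 0)).card := by
        refine Finset.sum_congr rfl fun i hi => ?_
        have hiK := (Finset.mem_filter.mp hi).2.1
        simp only [hiK, not_false_eq_true, true_and]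
      have h2' : ∑ i ∈ I, (A.filter (fun a => i ∉ K ∧ a i ≠ 0)).card =
          ∑ i : Fin r, (A.filter (fun a => i ∉ K ∧ a i ≠ 0)).card := by
        apply Finset.sum_subset (Finset.subset_univ _)
        intro i _ hi
        rw [Finset.card_eq_zero, Finset.filter_eq_empty_iff]
        rintro a ha ⟨h, h'⟩
        exact hi (Finset.mem_filter.mpr ⟨Finset.mem_univ _, h, a, ha, h'⟩)
      have h3 : ∀ a : Fin r → F, (supp (out K a)).card =
          (univ.filter (fun i => i ∉ K ∧ a i ≠ 0)).card := by
        intro a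
        congr 1
        ext i
        rw [mem_supp_out, Finset.mem_filter]
        simp
      rw [h2, h2']
      simp only [h3, Finset.card_filter]
      exact Finset.sum_comm
    have h3 : P * Q * (2 * gg m) * I.card ≤ ∑ i ∈ I, (A.filter (fun a => a i ≠ 0)).card := by
      rw [mul_comm, ← smul_eq_mul]
      apply Finset.card_nsmul_le_sum
      intro i hi
      exact hcon i (Finset.mem_filter.mp hi).2.2
    have h4 : ∑ a ∈ A, (supp (out K a)).card = J.card + 2 * E.card := by
      have h5 : ∀ a ∈ A, (supp (out K a)).card = (if (supp (out K a)).card = 1 then 1 else 0) +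
          2 * (if (supp (out K a)).card = 2 then 1 else 0) := by
        intro a ha
        have h6 := hw a ha
        have : (supp (out K a)).card = 0 ∨ (supp (out K a)).card = 1 ∨
          (supp (out K a)).card = 2 := by omega
        rcases this with h | h | h <;> rw [h] <;> simp
      rw [Finset.sum_congr rfl h5, Finset.sum_add_distrib, ← Finset.mul_sum, hJ, hE,
        Finset.card_filter, Finset.card_filter]
    rw [← h4, ← h1]
    exact h3
  -- the switching
  obtain ⟨s, t, hs⟩ := exists_switch2 K J E (fun a ha => (Finset.mem_filter.mp ha).2)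
    (fun a ha => (Finset.mem_filter.mp ha).2)
  set balE := E.filter (fun a => Bal K s t a) with hbalE
  set balJ := J.filter (fun a => Bal K s t a) with hbalJ
  let w : Option (Fin r) → (Fin r → F) := fun x => x.elim 0 (fun i => fun l =>
    if h : l ∈ K then t i ⟨l, h⟩ else (Pi.single i ((s i : F)⁻¹) : Fin r → F) l)
  have hsne : ∀ i, (s i : F) ≠ 0 := fun i => Units.ne_zero _
  have hsne' : ∀ i, (s i : F)⁻¹ ≠ 0 := fun i => inv_ne_zero (hsne i)
  have wK : ∀ i l (h : l ∈ K), w (some i) l = t i ⟨l, h⟩ := by
    intro i l h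
    simp only [w, Option.elim_some]
    rw [dif_pos h]
  have wO : ∀ i l, l ∉ K → w (some i) l = (Pi.single i ((s i : F)⁻¹) : Fin r → F) l := by
    intro i l h
    simp only [w, Option.elim_some]
    rw [dif_neg h]
  have w0 : ∀ l, w none l = 0 := fun l => rfl
  -- independence
  have hAI : ∀ U : Finset (Option (Fin r)), (∀ i, some i ∈ U → i ∉ K) →
      AI (⊥ : Submodule F (Fin r → F)) U w := by
    intro U hU a h0 h1
    rw [Submodule.mem_bot] at h1
    have h2 : ∀ i : Fin r, some i ∈ U → a (some i) = 0 := by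
      intro i hi
      have hiK := hU i hi
      have h3 := congrFun h1 i
      rw [Finset.sum_apply, Finset.sum_eq_single (some i)] at h3
      · rw [Pi.smul_apply, wO i i hiK, Pi.single_eq_same, smul_eq_mul, Pi.zero_apply] at h3
        exact (mul_eq_zero.mp h3).resolve_right (hsne' i)
      · intro x _ hx
        rcases x with _ | j
        · rw [Pi.smul_apply, w0, smul_zero]
        · have : i ≠ j := fun h => hx (by rw [h])
          rw [Pi.smul_apply, wO j i hiK, Pi.single_eq_of_ne this, smul_zero]
      · intro h; exact absurd hi h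
    intro x hx
    rcases x with _ | i
    · rw [Finset.sum_eq_single none] at h0
      · exact h0
      · intro y hy hyn
        rcases y with _ | j
        · exact absurd rfl hyn
        · exact h2 j hy
      · intro h; exact absurd hx h
    · exact h2 i hx
  let R : (Fin r → F) → Option (Fin r) × Option (Fin r) → Prop :=
    fun a p => p.1 ≠ p.2 ∧ ∃ c : F, c ≠ 0 ∧ a = c • (w p.1 - w p.2)
  have hsum : ∀ (a : Fin r → F) (f : Fin r → F), ∑ k, out K a k * f k =
      ∑ k ∈ supp (out K a), out K a k * f k := by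
    intro a f
    symm
    apply Finset.sum_subset (Finset.subset_univ _)
    intro k _ hk
    have : out K a k = 0 := by
      by_contra h
      exact hk (Finset.mem_filter.mpr ⟨Finset.mem_univ _, h⟩)
    rw [this, zero_mul]
  have hout : ∀ (a : Fin r → F) i, i ∉ K → out K a i = a i := fun a i hi => if_neg hi
  have hRE : ∀ a ∈ balE, ∃ x ∈ I.image some, ∃ y ∈ I.image some, R a (x, y) ∧ R a (y, x) := by
    intro a ha
    obtain ⟨haE, hab⟩ := Finset.mem_filter.mp ha
    obtain ⟨haA, hac⟩ := Finset.mem_filter.mp haE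
    obtain ⟨i, j, hij, hsu⟩ := Finset.card_eq_two.mp hac
    have hi : i ∉ K ∧ a i ≠ 0 := mem_supp_out.mp (by rw [hsu]; simp)
    have hj : j ∉ K ∧ a j ≠ 0 := mem_supp_out.mp (by rw [hsu]; simp)
    have hk : ∀ k, k ∉ K → k ≠ i → k ≠ j → a k = 0 := by
      intro k h0 h1 h2
      by_contra h
      have : k ∈ supp (out K a) := mem_supp_out.mpr ⟨h0, h⟩
      rw [hsu, Finset.mem_insert, Finset.mem_singleton] at this
      rcases this with h3 | h3
      · exact h1 h3
      · exact h2 h3
    have hb1 : a i * s i + a j * s j = 0 := by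
      have := hab.1 hac
      rw [hsum a (fun k => (s k : F)), hsu, Finset.sum_pair hij, hout a i hi.1,
        hout a j hj.1] at this
      exact this
    have hb2 : ∀ (l : Fin r) (h : l ∈ K), (a i * s i) * t i ⟨l, h⟩ + (a j * s j) * t j ⟨l, h⟩ =
        a l := by
      intro l h
      have := hab.2 ⟨l, h⟩
      simp only [mul_assoc] at this
      rw [hsum a (fun k => (s k : F) * t k ⟨l, h⟩), hsu, Finset.sum_pair hij, hout a i hi.1,
        hout a j hj.1] at this
      rw [mul_assoc, mul_assoc]
      exact this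
    have hneg : a j * s j = -(a i * s i) := eq_neg_of_add_eq_zero_right hb1
    have haeq : a = (a i * s i) • (w (some i) - w (some j)) := by
      funext k
      rw [Pi.smul_apply, Pi.sub_apply, smul_eq_mul]
      by_cases hkK : k ∈ K
      · rw [wK i k hkK, wK j k hkK, ← hb2 k hkK, hneg]
        ring
      · rw [wO i k hkK, wO j k hkK]
        by_cases h1 : k = i
        · subst h1
          rw [Pi.single_eq_same, Pi.single_eq_of_ne hij, sub_zero, mul_assoc,
            mul_inv_cancel₀ (hsne k), mul_one]
        · by_cases h2 : k = j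
          · subst h2
            rw [Pi.single_eq_same, Pi.single_eq_of_ne h1, zero_sub, mul_neg]
            have : a i * s i = -(a k * s k) := eq_neg_of_add_eq_zero_left hb1
            rw [this, neg_mul, neg_neg, mul_assoc, mul_inv_cancel₀ (hsne k), mul_one]
          · rw [hk k hkK h1 h2, Pi.single_eq_of_ne h1, Pi.single_eq_of_ne h2, sub_zero, mul_zero]
    have hne2 : (some i : Option (Fin r)) ≠ some j := fun h => hij (Option.some.inj h)
    refine ⟨some i, Finset.mem_image_of_mem _ (Finset.mem_filter.mpr ⟨Finset.mem_univ _, hi.1, a,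
      haA, hi.2⟩), some j, Finset.mem_image_of_mem _ (Finset.mem_filter.mpr ⟨Finset.mem_univ _,
      hj.1, a, haA, hj.2⟩), ⟨hne2, _, mul_ne_zero hi.2 (hsne i), haeq⟩, ⟨hne2.symm,
      -(a i * s i), neg_ne_zero.mpr (mul_ne_zero hi.2 (hsne i)), ?_⟩⟩
    simp only
    rw [neg_smul, ← smul_neg, neg_sub]
    exact haeq
  have hRJ : ∀ a ∈ balJ, ∃ x ∈ I.image some, R a (x, none) ∧ R a (none, x) := by
    intro a ha
    obtain ⟨haJ, hab⟩ := Finset.mem_filter.mp ha
    obtain ⟨haA, hac⟩ := Finset.mem_filter.mp haJ
    obtain ⟨i, hsu⟩ := Finset.card_eq_one.mp hac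
    have hi : i ∉ K ∧ a i ≠ 0 := mem_supp_out.mp (by rw [hsu]; simp)
    have hk : ∀ k, k ∉ K → k ≠ i → a k = 0 := by
      intro k h0 h1
      by_contra h
      have : k ∈ supp (out K a) := mem_supp_out.mpr ⟨h0, h⟩
      rw [hsu, Finset.mem_singleton] at this
      exact h1 this
    have hb2 : ∀ (l : Fin r) (h : l ∈ K), (a i * s i) * t i ⟨l, h⟩ = a l := by
      intro l h
      have := hab.2 ⟨l, h⟩
      simp only [mul_assoc] at this
      rw [hsum a (fun k => (s k : F) * t k ⟨l, h⟩), hsu, Finset.sum_singleton, hout a i hi.1]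
        at this
      rw [mul_assoc]
      exact this
    have haeq : a = (a i * s i) • (w (some i) - w none) := by
      funext k
      rw [Pi.smul_apply, Pi.sub_apply, smul_eq_mul, w0, sub_zero]
      by_cases hkK : k ∈ K
      · rw [wK i k hkK, hb2 k hkK]
      · rw [wO i k hkK]
        by_cases h1 : k = i
        · subst h1
          rw [Pi.single_eq_same, mul_assoc, mul_inv_cancel₀ (hsne k), mul_one]
        · rw [hk k hkK h1, Pi.single_eq_of_ne h1, mul_zero]
    refine ⟨some i, Finset.mem_image_of_mem _ (Finset.mem_filter.mpr ⟨Finset.mem_univ _, hi.1, a,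
      haA, hi.2⟩), ⟨by simp, _, mul_ne_zero hi.2 (hsne i), haeq⟩, ⟨by simp, -(a i * s i),
      neg_ne_zero.mpr (mul_ne_zero hi.2 (hsne i)), ?_⟩⟩
    simp only
    rw [neg_smul, ← smul_neg, neg_sub]
    exact haeq
  -- different elements are represented by different pairs
  have hRinj : ∀ a ∈ A, ∀ a' ∈ A, ∀ p, R a p → R a' p → a = a' := by
    rintro a ha a' ha' p ⟨-, c, hc, h1⟩ ⟨-, c', hc', h2⟩
    refine hS.2 a' ha' a ha (c * c'⁻¹) ?_
    rw [h2, smul_smul, mul_assoc, inv_mul_cancel₀ hc', mul_one]
    exact h1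
  have hcount : ∀ (B : Finset (Fin r → F)) (U : Finset (Option (Fin r))), B ⊆ A →
      (∀ a ∈ B, ∃ x ∈ U, ∃ y ∈ U, R a (x, y) ∧ R a (y, x)) →
      2 * B.card ≤ (ep (⊥ : Submodule F (Fin r → F)) A U w).card := by
    intro B U hBA hB
    have h1 : ∀ a ∈ B, 2 ≤ ((ep (⊥ : Submodule F (Fin r → F)) A U w).filter
        (fun p => R a p)).card := by
      intro a ha
      obtain ⟨x, hx, y, hy, h2, h3⟩ := hB a ha
      have hmem : ∀ p, p.1 ∈ U → p.2 ∈ U → R a p → p ∈ (ep (⊥ : Submodule F (Fin r → F)) A U
          w).filter (fun p => R a p) := by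
        rintro p hp1 hp2 ⟨hp3, c, hc, hp4⟩
        refine Finset.mem_filter.mpr ⟨mem_ep.mpr ⟨hp1, hp2, hp3, a, hBA ha, c, hc, ?_⟩, hp3, c,
          hc, hp4⟩
        rw [← hp4, sub_self]
        exact Submodule.zero_mem _
      have hsub : ({(x, y), (y, x)} : Finset (Option (Fin r) × Option (Fin r))) ⊆
          (ep (⊥ : Submodule F (Fin r → F)) A U w).filter (fun p => R a p) := by
        intro p hp
        rw [Finset.mem_insert, Finset.mem_singleton] at hp
        rcases hp with rfl | rfl
        · exact hmem _ hx hy h2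
        · exact hmem _ hy hx h3
      refine le_trans ?_ (Finset.card_le_card hsub)
      rw [Finset.card_pair]
      intro h
      exact h2.1 (Prod.mk.inj h).1
    have h4 : (B.biUnion (fun a => (ep (⊥ : Submodule F (Fin r → F)) A U w).filter
        (fun p => R a p))).card = ∑ a ∈ B, ((ep (⊥ : Submodule F (Fin r → F)) A U w).filter
        (fun p => R a p)).card := by
      apply Finset.card_biUnion
      intro a ha a' ha' haa
      rw [Function.onFun, Finset.disjoint_left]
      intro p hp hp'
      exact haa (hRinj a (hBA ha) a' (hBA ha') p (Finset.mem_filter.mp hp).2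
        (Finset.mem_filter.mp hp').2)
    have h5 : (B.biUnion (fun a => (ep (⊥ : Submodule F (Fin r → F)) A U w).filter
        (fun p => R a p))).card ≤ (ep (⊥ : Submodule F (Fin r → F)) A U w).card := by
      apply Finset.card_le_card
      intro p hp
      obtain ⟨a, _, hp⟩ := Finset.mem_biUnion.mp hp
      exact (Finset.mem_filter.mp hp).1
    have h6 : B.card • 2 ≤ ∑ a ∈ B, ((ep (⊥ : Submodule F (Fin r → F)) A U w).filter
        (fun p => R a p)).card := Finset.card_nsmul_le_sum _ _ _ h1
    rw [smul_eq_mul] at h6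
    omega
  have hIne : 1 ≤ I.card := by
    obtain ⟨a, ha, i, hiK, hi⟩ := hne
    exact Finset.card_pos.mpr ⟨i, Finset.mem_filter.mpr ⟨Finset.mem_univ _, hiK, a, ha, hi⟩⟩
  have hIim : (I.image some).card = I.card :=
    Finset.card_image_of_injective _ (Option.some_injective _)
  have hIK : ∀ i, some i ∈ I.image some → i ∉ K := by
    intro i hi
    obtain ⟨j, hj, hji⟩ := Finset.mem_image.mp hi
    rw [← Option.some.inj hji]
    exact (Finset.mem_filter.mp hj).2.1
  have hbalEA : balE ⊆ A := (Finset.filter_subset _ _).trans hEA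
  have hbalJA : balJ ⊆ A := (Finset.filter_subset _ _).trans hJA
  by_cases hJ0 : J = ∅
  · -- no joints
    apply hK
    apply hasK A m (by omega) (I.image some) w (hAI _ hIK)
    rw [hIim]
    have h1 := hcount balE (I.image some) hbalEA hRE
    have h2 : J.card = 0 := by rw [hJ0]; rfl
    have h3 : balJ.card = 0 := by
      rw [hbalJ, hJ0]; rfl
    rw [h2, zero_add] at hdc
    rw [h2, mul_zero, h3, add_zero, add_zero] at hs
    exact lt_of_lt_of_le (arith4 P Q (gg m) I.card E.card balE.card hP1 hQ1 hg1 hIne hs hdc) h1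
  · apply hK
    apply hasK A m (by omega) (insert none (I.image some)) w (hAI _ (by
      intro i hi
      rcases Finset.mem_insert.mp hi with h | h
      · exact absurd h (by simp)
      · exact hIK i h))
    have h0 : (none : Option (Fin r)) ∉ I.image some := by simp
    rw [Finset.card_insert_of_notMem h0, hIim, Nat.add_sub_cancel]
    have hJpos : 1 ≤ J.card := Finset.card_pos.mpr (Finset.nonempty_iff_ne_empty.mpr hJ0)
    have hdisj : Disjoint balE balJ := by
      rw [Finset.disjoint_left]
      intro a h1 h2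
      have h3 := (Finset.mem_filter.mp (Finset.mem_filter.mp h1).1).2
      have h4 := (Finset.mem_filter.mp (Finset.mem_filter.mp h2).1).2
      omega
    have h1 := hcount (balE ∪ balJ) (insert none (I.image some))
      (Finset.union_subset hbalEA hbalJA) (by
      intro a ha
      rcases Finset.mem_union.mp ha with ha | ha
      · obtain ⟨x, hx, y, hy, h⟩ := hRE a ha
        exact ⟨x, Finset.mem_insert_of_mem hx, y, Finset.mem_insert_of_mem hy, h⟩
      · obtain ⟨x, hx, h⟩ := hRJ a ha
        exact ⟨x, Finset.mem_insert_of_mem hx, none, Finset.mem_insert_self _ _, h⟩)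
    rw [Finset.card_union_of_disjoint hdisj] at h1
    exact lt_of_lt_of_le (arith3 P Q (gg m) I.card J.card E.card balE.card balJ.card hQ1 hJpos
      hs hdc) h1

end MPed7341.FG
end

section
/-
MP_ed7341_co, frame geometries and their lifts (helper55): the final theorem.
-/
set_option autoImplicit false

namespace MPed7341.FG

open Submodule Finset

open Classical in
theorem lift_pow {F : Type} [Field F] [Fintype F] (m r c : ℕ) (K : Finset (Fin r)) (hm : 3 ≤ m)
    (hc : Fintype.card F ^ K.card * (Fintype.card F - 1) * 2 ^ (m - 2) ≤ Fintype.card F ^ c)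
    (S : Finset (Fin r → F)) (h0 : (0 : Fin r → F) ∉ S)
    (hw : ∀ x ∈ S, (univ.filter (fun i => i ∉ K ∧ x i ≠ 0)).card ≤ 2)
    (hK : ¬ KM.HasK F m S) :
    ∃ f : Fin c → Module.Dual F (Fin r → F), ∀ x ∈ S, ∃ i, f i x ≠ 0 := by
  have hq : 2 ≤ Fintype.card F := Fintype.one_lt_card
  refine greedy c (fun A => (∀ x ∈ A, (univ.filter (fun i => i ∉ K ∧ x i ≠ 0)).card ≤ 2) ∧
    ¬ KM.HasK F m A) ?_ ?_ S ⟨hw, hK⟩ h0
  · intro A B hAB hB
    exact ⟨fun x hx => hB.1 x (hAB hx), fun h => hB.2 (HasK.mono hAB h)⟩
  · rintro A ⟨h1, h2⟩ hS hne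
    by_cases hex : ∃ a ∈ A, ∃ i, i ∉ K ∧ a i ≠ 0
    · obtain ⟨i, hi, hcard⟩ := exists_small2 K A m hm hS hex (by
        intro a ha
        have h3 : supp (out K a) = univ.filter (fun i => i ∉ K ∧ a i ≠ 0) := by
          ext i
          rw [mem_supp_out, Finset.mem_filter]
          simp
        rw [h3]
        exact h1 a ha) h2
      exact ⟨LinearMap.proj i, hi, lt_of_lt_of_le hcard hc⟩
    · push Not at hex
      obtain ⟨a, ha⟩ := hne
      have ha0 : a ≠ 0 := fun h => hS.1 (h ▸ ha)
      obtain ⟨l, hl⟩ := Function.ne_iff.mp ha0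
      refine ⟨LinearMap.proj l, ⟨a, ha, hl⟩, ?_⟩
      refine lt_of_le_of_lt (Finset.card_filter_le _ _) ?_
      have h3 : A.card < Fintype.card F ^ K.card := by
        let res : (Fin r → F) → ({l // l ∈ K} → F) := fun x l => x l
        have hinj : ∀ x ∈ A, ∀ y ∈ A, res x = res y → x = y := by
          intro x hx y hy hxy
          funext i
          by_cases hi : i ∈ K
          · exact congrFun hxy ⟨i, hi⟩
          · rw [hex x hx i hi, hex y hy i hi]
        have h4 : A.card = (A.image res).card := by
          rw [Finset.card_image_of_injOn]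
          intro x hx y hy hxy
          exact hinj x hx y hy hxy
        have h5 : A.image res ⊆ univ.erase 0 := by
          intro y hy
          obtain ⟨x, hx, rfl⟩ := Finset.mem_image.mp hy
          refine Finset.mem_erase.mpr ⟨?_, Finset.mem_univ _⟩
          intro h
          apply hS.1
          have : x = 0 := by
            funext i
            by_cases hi : i ∈ K
            · exact congrFun h ⟨i, hi⟩
            · rw [hex x hx i hi]; rfl
          rw [← this]
          exact hx
        have h6 := Finset.card_le_card h5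
        rw [Finset.card_erase_of_mem (Finset.mem_univ _), Finset.card_univ, Fintype.card_fun,
          Fintype.card_coe] at h6
        have h7 : 1 ≤ Fintype.card F ^ K.card := Nat.one_le_pow _ _ (by omega)
        omega
      refine lt_of_lt_of_le h3 (le_trans ?_ hc)
      have h8 : 1 ≤ (Fintype.card F - 1) * 2 ^ (m - 2) :=
        Nat.mul_pos (by omega) (by positivity)
      calc Fintype.card F ^ K.card = Fintype.card F ^ K.card * 1 := (mul_one _).symm
        _ ≤ Fintype.card F ^ K.card * ((Fintype.card F - 1) * 2 ^ (m - 2)) :=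
          Nat.mul_le_mul_left _ h8
        _ = _ := by ring

/-- frame geometries and their lifts. -/
theorem lift (F : Type) [Field F] [Fintype F] [DecidableEq F] (m r c : ℕ) (K : Finset (Fin r))
    (hm : 3 ≤ m)
    (hc : (K = ∅ ∧ c = m - 2) ∨
      Fintype.card F ^ K.card * (Fintype.card F - 1) * 2 ^ (m - 2) ≤ Fintype.card F ^ c)
    (S : Finset (Fin r → F)) (h0 : (0 : Fin r → F) ∉ S)
    (hw : ∀ x ∈ S, (univ.filter (fun i => i ∉ K ∧ x i ≠ 0)).card ≤ 2)
    (hS : ¬ ∃ (C : Finset (Fin r → F)) (g : {p : Fin m × Fin m // p.1 < p.2} → (Fin r → F)),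
        C ⊆ S ∧ (∀ e, g e ∈ S) ∧
        ∀ T : Set {p : Fin m × Fin m // p.1 < p.2},
          (LinearIndependent F (T.restrict
              (fun e => (Submodule.span F (C : Set (Fin r → F))).mkQ (g e))) ↔
           LinearIndependent F (T.restrict
              (fun e => ((Pi.single e.1.1 (1 : F) : Fin m → F) -
                (Pi.single e.1.2 (1 : F) : Fin m → F)))))) :
    ∃ f : Fin c → Module.Dual F (Fin r → F), ∀ x ∈ S, ∃ i, f i x ≠ 0 := by
  rcases hc with ⟨rfl, hc⟩ | hc
  · refine frame F m r c hm (Or.inl hc) S h0 ?_ hS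
    intro x hx
    have := hw x hx
    simpa using this
  · exact lift_pow m r c K hm hc S h0 (fun x hx => by convert hw x hx) (KM.FRO F m r S hS)

end MPed7341.FG
end
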